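import Pool.Graph.R_seed8.TH686.DO.Inv2

set_option autoImplicit false

/-!
Subdivided graphs as forests of height two with an involution, and as equivalence relations with a
function.
-/

namespace Pool.Agent.H2.VC.Sh

open FirstOrder FirstOrder.Language
open Pool.Agent.W889.FO Pool.Agent.W889.VC
open Pool.Agent.W889.SD (Nth Big Subd Pth)
open Pool.Agent.W889.FO.StA (FD.all1 FD.ex1)
open Pool.Agent.W889.FO.StE (LG gd siso_gd fd_gd)
open Pool.Agent.TH686.FO Pool.Agent.TH686.DO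

/-- the neighbours of a vertex which is not big -/
theorem nbr {x : ℕ → ℕ → Prop} (h : Subd 1 x) {u : ℕ} (hu : ¬ Big x u) :
    (∀ v, ¬ x u v) ∨ ∃ w v, Big x w ∧ ¬ Big x v ∧ x u w ∧ x u v ∧ ∀ z, x u z → z = w ∨ z = v := by
  rcases h.cov u hu with h1 | ⟨w, p, w', i, hp, rfl⟩
  · exact Or.inl h1
  right
  have h01 : x (p 0) (p 1) := hp.mid 0 1 rfl
  have hi : i = 0 ∨ i = 1 := by
    fin_cases i
    · exact Or.inl rfl
    · exact Or.inr rfl
  rcases hi with rfl | rfl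
  · refine ⟨w, p 1, hp.bw, hp.nb 1, h.symm _ _ (hp.st 0 rfl), h01, fun z hz => ?_⟩
    rcases h.cl w p w' 0 z hp hz with ⟨rfl, -⟩ | ⟨-, h2⟩ | ⟨j, rfl, hj⟩
    · exact Or.inl rfl
    · exact absurd h2 (by decide)
    · right
      fin_cases j
      · exfalso
        rcases hj with hj | hj
        · exact absurd hj (by decide)
        · exact absurd hj (by decide)
      · rfl
  · refine ⟨w', p 0, hp.bw', hp.nb 0, hp.en 1 rfl, h.symm _ _ h01, fun z hz => ?_⟩
    rcases h.cl w p w' 1 z hp hz with ⟨-, h2⟩ | ⟨rfl, -⟩ | ⟨j, rfl, hj⟩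
    · exact absurd h2 (by decide)
    · exact Or.inl rfl
    · right
      fin_cases j
      · rfl
      · exfalso
        rcases hj with hj | hj
        · exact absurd hj (by decide)
        · exact absurd hj (by decide)

section facts

variable {x : ℕ → ℕ → Prop} (h : Subd 1 x)

include h

theorem big_un {u v w : ℕ} (hu : ¬ Big x u) (hv : Big x v) (hw : Big x w) (h1 : x u v)
    (h2 : x u w) : v = w := by
  rcases nbr h hu with h3 | ⟨a, b, h3, h4, h5, h6, h7⟩
  · exact absurd h1 (h3 v)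
  · rcases h7 v h1 with rfl | rfl
    · rcases h7 w h2 with rfl | rfl
      · rfl
      · exact absurd hw h4
    · exact absurd hv h4

theorem sm_un {u v w : ℕ} (hu : ¬ Big x u) (hv : ¬ Big x v) (hw : ¬ Big x w) (h1 : x u v)
    (h2 : x u w) : v = w := by
  rcases nbr h hu with h3 | ⟨a, b, h3, h4, h5, h6, h7⟩
  · exact absurd h1 (h3 v)
  · rcases h7 v h1 with rfl | rfl
    · exact absurd h3 hv
    · rcases h7 w h2 with rfl | rfl
      · exact absurd h3 hw
      · rfl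

theorem big_ex {u v : ℕ} (hu : ¬ Big x u) (h1 : x u v) : ∃ w, Big x w ∧ x u w := by
  rcases nbr h hu with h3 | ⟨a, b, h3, h4, h5, h6, h7⟩
  · exact absurd h1 (h3 v)
  · exact ⟨a, h3, h5⟩

theorem sm_ex {u v : ℕ} (hu : ¬ Big x u) (h1 : x u v) : ∃ w, ¬ Big x w ∧ x u w := by
  rcases nbr h hu with h3 | ⟨a, b, h3, h4, h5, h6, h7⟩
  · exact absurd h1 (h3 v)
  · exact ⟨b, h4, h6⟩

end facts

/-! ### recoding -/

/-- interpretations with the same domain -/
def idI2 {W1 : L2.Structure ℕ → Prop} (ax : Ax W1) {ρ : L2.Structure ℕ → ℕ → ℕ → Prop}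
    (hρ : FB ρ) : Itp LG L2 where
  W := W1
  axW := ax
  dom := fun _ _ => True
  rel := fun {n} Q => match n, Q with
    | _, FirstOrder.Language.graphRel.adj => fun S v => ρ S (v 0) (v 1)
  fdom := FD.const True
  frel := fun {n} Q => match n, Q with
    | _, FirstOrder.Language.graphRel.adj => (hρ 0 1).mono fun _ _ => trivial
  inf := fun _ _ N => ⟨N, le_rfl, trivial⟩

theorem idI2_D {W1 : L2.Structure ℕ → Prop} (ax : Ax W1) {ρ : L2.Structure ℕ → ℕ → ℕ → Prop}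
    (hρ : FB ρ) {S : L2.Structure ℕ} (h : W1 S) : SIso ((idI2 ax hρ).D S) (ofr (ρ S)) := by
  refine (idI2 ax hρ).D_iso (S := S) h (Equiv.subtypeUnivEquiv (p := fun _ : ℕ => True)
    fun _ => trivial).symm fun {n} Q u => ?_
  cases Q with
  | adj => exact Iff.rfl

/-- composition with a definable relation -/
theorem ax_comp2 {W : LG.Structure ℕ → Prop} (hW : Ax W) {ρ : L2.Structure ℕ → ℕ → ℕ → Prop}
    (hρ : FB ρ) : Ax (fun S => W (ofr (ρ S))) := by
  obtain ⟨T, hT⟩ := hW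
  have h0 : Ax (fun _ : L2.Structure ℕ => True) := Ax.of (FD.const True)
  refine ((idI2 h0 hρ).ax_theory T).congr fun S => ?_
  rw [← hT]
  have h1 := idI2_D h0 hρ (S := S) trivial
  exact ⟨fun h => h1.model h.2, fun h => ⟨trivial, h1.symm.model h⟩⟩

theorem fb_big2 {ρ : L2.Structure ℕ → ℕ → ℕ → Prop} (hρ : FB ρ) : FU (fun S => Big (ρ S)) :=
  fun i => FD.ex1 <| FD.ex1 <| FD.ex1 <| (FD.eq x2 x1).not.and <| (FD.eq x2 x0).not.and <|
    (FD.eq x1 x0).not.and <| (hρ (Sum.inl (Sum.inl (Sum.inl i))) x2).and <|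
    (hρ (Sum.inl (Sum.inl (Sum.inl i))) x1).and (hρ (Sum.inl (Sum.inl (Sum.inl i))) x0)

/-- structures for two binary relations -/
@[reducible] def of2 (l k : ℕ → ℕ → Prop) : L2.Structure ℕ :=
  { funMap := fun {_} f => isEmptyElim f
    RelMap := fun {n} Q => match n, Q with
      | _, R2.fst => fun v => l (v 0) (v 1)
      | _, R2.snd => fun v => k (v 0) (v 1) }

/-- From subdivided graphs to pairs of relations: `P` and `Q` are defined from the adjacency, and
`ρ` recovers it. -/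
theorem red_pair {ρ : L2.Structure ℕ → ℕ → ℕ → Prop} (hρ : FB ρ)
    {P Q : (ℕ → ℕ → Prop) → ℕ → ℕ → Prop}
    (hP : FB fun S : L2.Structure ℕ => P (ρ S)) (hQ : FB fun S : L2.Structure ℕ => Q (ρ S))
    (eP : ∀ (x y : ℕ → ℕ → Prop) (σ : Equiv.Perm ℕ), (∀ u v, x u v ↔ y (σ u) (σ v)) →
      ∀ u v, P x u v ↔ P y (σ u) (σ v))
    (eQ : ∀ (x y : ℕ → ℕ → Prop) (σ : Equiv.Perm ℕ), (∀ u v, x u v ↔ y (σ u) (σ v)) →
      ∀ u v, Q x u v ↔ Q y (σ u) (σ v))
    (hr : ∀ x : ℕ → ℕ → Prop, Subd 1 x → ρ (of2 (P x) (Q x)) = x)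
    (hV : ∀ T' : L2.Theory, (∀ S : L2.Structure ℕ, @Theory.Model L2 ℕ S T' →
      ∃ x : ℕ → ℕ → Prop, Subd 1 x ∧ g1 S = P x ∧ g2 S = Q x) → Vaught L2 T')
    (T : LG.Theory) : Vaught LG T := by
  have := StD.countable_LG
  let W1 : L2.Structure ℕ → Prop := fun S => StD.W 1 (ofr (ρ S)) ∧
    (∀ u v, g1 S u v ↔ P (ρ S) u v) ∧ ∀ u v, g2 S u v ↔ Q (ρ S) u v
  have ax : Ax W1 := (ax_comp2 (StD.ax_W 1) hρ).and <|
    (Ax.of <| FD.all1 <| FD.all1 <| (fb_g1 x1 x0).iff (hP x1 x0)).and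
      (Ax.of <| FD.all1 <| FD.all1 <| (fb_g2 x1 x0).iff (hQ x1 x0))
  refine to_W 1 (fun T1 hT1 => ?_) T
  have hj : Itp.Cnt (idI2 ax hρ) Unit (fun _ => ()) := by
    refine ⟨fun S S' h h' hi _ => ?_, fun f _ _ c => BP.const _⟩
    have h1 : SIso (ofr (ρ S)) (ofr (ρ S')) :=
      ((idI2_D ax hρ h).symm.trans hi).trans (idI2_D ax hρ h')
    obtain ⟨e⟩ := h1
    let σ : Equiv.Perm ℕ := @FirstOrder.Language.Equiv.toEquiv LG ℕ ℕ (ofr (ρ S)) (ofr (ρ S')) e
    have h2 : ∀ u v, ρ S u v ↔ ρ S' (σ u) (σ v) := fun u v =>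
      (iso_rel e FirstOrder.Language.graphRel.adj ![u, v]).symm
    refine siso_ps ⟨σ, fun u v => ⟨?_, ?_⟩⟩
    · rw [Bool.eq_iff_iff, ps1, ps1, h.2.1, h'.2.1]
      exact (eP _ _ σ h2 u v).symm
    · rw [Bool.eq_iff_iff, ps2, ps2, h.2.2, h'.2.2]
      exact (eQ _ _ σ h2 u v).symm
  refine (idI2 ax hρ).transfer hj T1 (fun M hM => ?_) fun T' hT' => hV T' fun S hS => ?_
  · have hW := hT1 M hM
    let S : L2.Structure ℕ := of2 (P (gd M)) (Q (gd M))
    have e1 : ρ S = gd M := hr _ hW.sd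
    have h1 : W1 S := by
      refine ⟨?_, fun u v => ?_, fun u v => ?_⟩
      · rw [e1]
        exact ⟨hW.sd, hW.inf⟩
      · rw [e1]
        exact Iff.rfl
      · rw [e1]
        exact Iff.rfl
    refine ⟨S, h1, (idI2_D ax hρ h1).trans ?_⟩
    refine siso_gd (Equiv.refl ℕ) fun u v => ?_
    rw [gd_ofr, e1]
    exact Iff.rfl
  · obtain ⟨h1, h2, h3⟩ := (hT' S hS).1
    exact ⟨ρ S, h1.sd, funext fun u => funext fun v => propext (h2 u v),
      funext fun u => funext fun v => propext (h3 u v)⟩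

/-! ### forests with an involution -/

/-- the order -/
def Pf (x : ℕ → ℕ → Prop) (u v : ℕ) : Prop := u = v ∨ (x u v ∧ Big x u ∧ ¬ Big x v)

/-- the involution -/
def Qf (x : ℕ → ℕ → Prop) (u v : ℕ) : Prop := x u v ∧ ¬ Big x u ∧ ¬ Big x v

/-- the adjacency -/
def rf (S : L2.Structure ℕ) (u v : ℕ) : Prop := (g1 S u v ∧ u ≠ v) ∨ (g1 S v u ∧ u ≠ v) ∨ g2 S u v

theorem fb_rf : FB rf := fun i j => ((fb_g1 i j).and (FD.eq i j).not).or <|
  ((fb_g1 j i).and (FD.eq i j).not).or (fb_g2 i j)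

theorem big_eq {x y : ℕ → ℕ → Prop} (σ : Equiv.Perm ℕ) (h : ∀ u v, x u v ↔ y (σ u) (σ v))
    (u : ℕ) : Big x u ↔ Big y (σ u) := Pool.Agent.W889.SD.big_map σ h u

theorem ePf (x y : ℕ → ℕ → Prop) (σ : Equiv.Perm ℕ) (h : ∀ u v, x u v ↔ y (σ u) (σ v)) (u v : ℕ) :
    Pf x u v ↔ Pf y (σ u) (σ v) := by
  unfold Pf
  rw [h, big_eq σ h, big_eq σ h, σ.apply_eq_iff_eq]

theorem eQf (x y : ℕ → ℕ → Prop) (σ : Equiv.Perm ℕ) (h : ∀ u v, x u v ↔ y (σ u) (σ v)) (u v : ℕ) :
    Qf x u v ↔ Qf y (σ u) (σ v) := by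
  unfold Qf
  rw [h, big_eq σ h, big_eq σ h]

theorem rf_of {x : ℕ → ℕ → Prop} (h : Subd 1 x) : rf (of2 (Pf x) (Qf x)) = x := by
  funext u v
  refine propext ?_
  show (Pf x u v ∧ u ≠ v) ∨ (Pf x v u ∧ u ≠ v) ∨ Qf x u v ↔ x u v
  constructor
  · rintro (⟨h1 | h1, h2⟩ | ⟨h1 | h1, h2⟩ | h1)
    · exact absurd h1 h2
    · exact h1.1
    · exact absurd h1.symm h2
    · exact h.symm _ _ h1.1
    · exact h1.1
  · intro h1
    have hne : u ≠ v := by
      rintro rfl
      exact h.irrefl u h1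
    by_cases hu : Big x u
    · exact Or.inl ⟨Or.inr ⟨h1, hu, fun hv => h.indep u v hu hv h1⟩, hne⟩
    · by_cases hv : Big x v
      · exact Or.inr (Or.inl ⟨Or.inr ⟨h.symm _ _ h1, hv, hu⟩, hne⟩)
      · exact Or.inr (Or.inr ⟨h1, hu, hv⟩)

/-- forests of height two, with an involution of the elements which are not minimal -/
structure Fst (l e : ℕ → ℕ → Prop) : Prop where
  refl : ∀ u, l u u
  trans : ∀ u v w, l u v → l v w → l u w
  anti : ∀ u v, l u v → l v u → u = v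
  semi : ∀ u v w, l u w → l v w → l u v ∨ l v u
  height : ∀ u v w, l u v → l v w → u = v ∨ v = w
  symm : ∀ u v, e u v → e v u
  fn : ∀ u v w, e u v → e u w → v = w
  dom : ∀ u, (∃ v, e u v) ↔ ∃ v, l v u ∧ v ≠ u
  fix : ∀ u, ¬ e u u

theorem fst_of {x : ℕ → ℕ → Prop} (h : Subd 1 x) : Fst (Pf x) (Qf x) where
  refl := fun u => Or.inl rfl
  trans := by
    rintro u v w (rfl | h1) (rfl | h2)
    · exact Or.inl rfl
    · exact Or.inr h2
    · exact Or.inr h1
    · exact absurd h2.2.1 h1.2.2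
  anti := by
    rintro u v (rfl | h1) h2
    · rfl
    · rcases h2 with rfl | h2
      · rfl
      · exact absurd h2.2.1 h1.2.2
  semi := by
    rintro u v w (rfl | h1) h2
    · exact Or.inr h2
    · rcases h2 with rfl | h2
      · exact Or.inl (Or.inr h1)
      · left
        left
        exact big_un h h1.2.2 h1.2.1 h2.2.1 (h.symm _ _ h1.1) (h.symm _ _ h2.1)
  height := by
    rintro u v w (rfl | h1) h2
    · exact Or.inl rfl
    · rcases h2 with rfl | h2
      · exact Or.inr rfl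
      · exact absurd h2.2.1 h1.2.2
  symm := fun u v h1 => ⟨h.symm _ _ h1.1, h1.2.2, h1.2.1⟩
  fn := fun u v w h1 h2 => sm_un h h1.2.1 h1.2.2 h2.2.2 h1.1 h2.1
  dom := by
    intro u
    constructor
    · rintro ⟨v, h1, h2, h3⟩
      obtain ⟨w, h4, h5⟩ := big_ex h h2 h1
      refine ⟨w, Or.inr ⟨h.symm _ _ h5, h4, h2⟩, ?_⟩
      rintro rfl
      exact h2 h4
    · rintro ⟨v, h1 | h1, h2⟩
      · exact absurd h1 h2
      · obtain ⟨w, h4, h5⟩ := sm_ex h h1.2.2 (h.symm _ _ h1.1)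
        exact ⟨w, h5, h1.2.2, h4⟩
  fix := fun u h1 => h.irrefl u h1.1

theorem red_fst (hV : ∀ T' : L2.Theory, (∀ S : L2.Structure ℕ, @Theory.Model L2 ℕ S T' →
    Fst (g1 S) (g2 S)) → Vaught L2 T') (T : LG.Theory) : Vaught LG T := by
  have hb : FU fun S => Big (rf S) := fb_big2 fb_rf
  refine red_pair fb_rf (P := Pf) (Q := Qf) (fun i j => (FD.eq i j).or <| (fb_rf i j).and <|
    (hb i).and (hb j).not) (fun i j => (fb_rf i j).and <| (hb i).not.and (hb j).not) ePf eQf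
    (fun x hx => rf_of hx) (fun T' hT' => hV T' fun S hS => ?_) T
  obtain ⟨x, hx, h1, h2⟩ := hT' S hS
  rw [h1, h2]
  exact fst_of hx

/-! ### equivalence relations with a function -/

/-- the equivalence relation -/
def Pe (x : ℕ → ℕ → Prop) (u v : ℕ) : Prop :=
  u = v ∨ (Big x u ∧ Big x v) ∨ (x u v ∧ ¬ Big x u ∧ ¬ Big x v)

/-- the graph of the function -/
def Qe (x : ℕ → ℕ → Prop) (u v : ℕ) : Prop :=
  (u = v ∧ (Big x u ∨ ∀ w, ¬ x u w)) ∨ (x u v ∧ ¬ Big x u ∧ Big x v)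

/-- the adjacency -/
def re (S : L2.Structure ℕ) (u v : ℕ) : Prop := u ≠ v ∧
  (g2 S u v ∨ g2 S v u ∨ (g1 S u v ∧ ¬ g2 S u u ∧ ¬ g2 S v v))

theorem fb_re : FB re := fun i j => (FD.eq i j).not.and <| (fb_g2 i j).or <| (fb_g2 j i).or <|
  (fb_g1 i j).and <| (fb_g2 i i).not.and (fb_g2 j j).not

theorem ePe (x y : ℕ → ℕ → Prop) (σ : Equiv.Perm ℕ) (h : ∀ u v, x u v ↔ y (σ u) (σ v)) (u v : ℕ) :
    Pe x u v ↔ Pe y (σ u) (σ v) := by
  unfold Pe
  rw [h, big_eq σ h, big_eq σ h, σ.apply_eq_iff_eq]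

theorem eQe (x y : ℕ → ℕ → Prop) (σ : Equiv.Perm ℕ) (h : ∀ u v, x u v ↔ y (σ u) (σ v)) (u v : ℕ) :
    Qe x u v ↔ Qe y (σ u) (σ v) := by
  have h1 : (∀ w, ¬ x u w) ↔ ∀ w, ¬ y (σ u) w := by
    constructor
    · intro h2 w
      have := h2 (σ.symm w)
      rw [h, σ.apply_symm_apply] at this
      exact this
    · intro h2 w
      rw [h]
      exact h2 _
  unfold Qe
  rw [h, h1, big_eq σ h, big_eq σ h, σ.apply_eq_iff_eq]

theorem re_of {x : ℕ → ℕ → Prop} (h : Subd 1 x) : re (of2 (Pe x) (Qe x)) = x := by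
  funext u v
  refine propext ?_
  show u ≠ v ∧ (Qe x u v ∨ Qe x v u ∨ (Pe x u v ∧ ¬ Qe x u u ∧ ¬ Qe x v v)) ↔ x u v
  constructor
  · rintro ⟨h0, h1 | h1 | ⟨h1, h2, h3⟩⟩
    · rcases h1 with h1 | h1
      · exact absurd h1.1 h0
      · exact h1.1
    · rcases h1 with h1 | h1
      · exact absurd h1.1.symm h0
      · exact h.symm _ _ h1.1
    · rcases h1 with h1 | h1 | h1
      · exact absurd h1 h0
      · exact absurd (Or.inl ⟨rfl, Or.inl h1.1⟩) h2
      · exact h1.1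
  · intro h1
    have hne : u ≠ v := by
      rintro rfl
      exact h.irrefl u h1
    refine ⟨hne, ?_⟩
    by_cases hu : Big x u
    · exact Or.inr (Or.inl (Or.inr ⟨h.symm _ _ h1, fun hv => h.indep u v hu hv h1, hu⟩))
    · by_cases hv : Big x v
      · exact Or.inl (Or.inr ⟨h1, hu, hv⟩)
      · refine Or.inr (Or.inr ⟨Or.inr (Or.inr ⟨h1, hu, hv⟩), ?_, ?_⟩)
        · rintro (⟨-, h2 | h2⟩ | h2)
          · exact hu h2
          · exact h2 v h1
          · exact h.irrefl u h2.1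
        · rintro (⟨-, h2 | h2⟩ | h2)
          · exact hv h2
          · exact h2 u (h.symm _ _ h1)
          · exact h.irrefl v h2.1

/-- equivalence relations with an idempotent function which preserves them -/
structure Eqf (l e : ℕ → ℕ → Prop) : Prop where
  refl : ∀ u, l u u
  symm : ∀ u v, l u v → l v u
  trans : ∀ u v w, l u v → l v w → l u w
  fn : ∀ u, ∃! v, e u v
  idem : ∀ u v, e u v → e v v
  pres : ∀ u v u' v', l u v → e u u' → e v v' → l u' v'

theorem eqf_of {x : ℕ → ℕ → Prop} (h : Subd 1 x) : Eqf (Pe x) (Qe x) where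
  refl := fun u => Or.inl rfl
  symm := by
    rintro u v (rfl | h1 | h1)
    · exact Or.inl rfl
    · exact Or.inr (Or.inl ⟨h1.2, h1.1⟩)
    · exact Or.inr (Or.inr ⟨h.symm _ _ h1.1, h1.2.2, h1.2.1⟩)
  trans := by
    rintro u v w (rfl | h1 | h1) h2
    · exact h2
    · rcases h2 with rfl | h2 | h2
      · exact Or.inr (Or.inl h1)
      · exact Or.inr (Or.inl ⟨h1.1, h2.2⟩)
      · exact absurd h1.2 h2.2.1
    · rcases h2 with rfl | h2 | h2
      · exact Or.inr (Or.inr h1)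
      · exact absurd h2.1 h1.2.2
      · exact Or.inl (sm_un h h1.2.2 h1.2.1 h2.2.2 (h.symm _ _ h1.1) h2.1)
  fn := by
    intro u
    by_cases hu : Big x u
    · refine ⟨u, Or.inl ⟨rfl, Or.inl hu⟩, ?_⟩
      rintro v (h1 | h1)
      · exact h1.1.symm
      · exact absurd hu h1.2.1
    · rcases nbr h hu with h3 | ⟨a, b, h3, h4, h5, h6, h7⟩
      · refine ⟨u, Or.inl ⟨rfl, Or.inr h3⟩, ?_⟩
        rintro v (h1 | h1)
        · exact h1.1.symm
        · exact absurd h1.1 (h3 v)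
      · refine ⟨a, Or.inr ⟨h5, hu, h3⟩, ?_⟩
        rintro v (⟨rfl, h1 | h1⟩ | h1)
        · exact absurd h1 hu
        · exact absurd h5 (h1 a)
        · exact big_un h hu h1.2.2 h3 h1.1 h5
  idem := by
    rintro u v (⟨rfl, h1⟩ | h1)
    · exact Or.inl ⟨rfl, h1⟩
    · exact Or.inl ⟨rfl, Or.inl h1.2.2⟩
  pres := by
    rintro u v u' v' (rfl | h1 | h1) h2 h3
    · have e1 : u' = v' := by
        rcases h2 with ⟨rfl, h2⟩ | h2 <;> rcases h3 with ⟨rfl, h3⟩ | h3
        · rfl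
        · rcases h2 with h2 | h2
          · exact absurd h2 h3.2.1
          · exact absurd h3.1 (h2 _)
        · rcases h3 with h3 | h3
          · exact absurd h3 h2.2.1
          · exact absurd h2.1 (h3 _)
        · exact big_un h h2.2.1 h2.2.2 h3.2.2 h2.1 h3.1
      exact Or.inl e1
    · have e1 : u = u' := by
        rcases h2 with h2 | h2
        · exact h2.1
        · exact absurd h1.1 h2.2.1
      have e2 : v = v' := by
        rcases h3 with h3 | h3
        · exact h3.1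
        · exact absurd h1.2 h3.2.1
      rw [← e1, ← e2]
      exact Or.inr (Or.inl h1)
    · have e1 : Big x u' := by
        rcases h2 with ⟨rfl, h2 | h2⟩ | h2
        · exact h2
        · exact absurd h1.1 (h2 _)
        · exact h2.2.2
      have e2 : Big x v' := by
        rcases h3 with ⟨rfl, h3 | h3⟩ | h3
        · exact h3
        · exact absurd (h.symm _ _ h1.1) (h3 _)
        · exact h3.2.2
      exact Or.inr (Or.inl ⟨e1, e2⟩)

theorem red_eqf (hV : ∀ T' : L2.Theory, (∀ S : L2.Structure ℕ, @Theory.Model L2 ℕ S T' →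
    Eqf (g1 S) (g2 S)) → Vaught L2 T') (T : LG.Theory) : Vaught LG T := by
  have hb : FU fun S => Big (re S) := fb_big2 fb_re
  refine red_pair fb_re (P := Pe) (Q := Qe) (fun i j => (FD.eq i j).or <|
    ((hb i).and (hb j)).or <| (fb_re i j).and <| (hb i).not.and (hb j).not)
    (fun i j => ((FD.eq i j).and <| (hb i).or <| FD.all1 (fb_re (Sum.inl i) x0).not).or <|
      (fb_re i j).and <| (hb i).not.and (hb j)) ePe eQe
    (fun x hx => re_of hx) (fun T' hT' => hV T' fun S hS => ?_) T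
  obtain ⟨x, hx, h1, h2⟩ := hT' S hS
  rw [h1, h2]
  exact eqf_of hx

/-- all theories from the complete theories of these forests -/
theorem full_fst (hV : ∀ T : L2.Theory, T.IsComplete → (∀ S : L2.Structure ℕ,
      @Theory.Model L2 ℕ S T → Fst (g1 S) (g2 S)) → VaughtF L2 T)
    (L : FirstOrder.Language.{0, 0}) (hL : Countable L.Symbols) (T : L.Theory) :
    VaughtF L T := by
  have := countable_L2
  exact all_of_LG (red_fst fun T hT => compl hV T hT) L hL T

/-- all theories from the complete theories of these equivalence relations -/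
theorem full_eqf (hV : ∀ T : L2.Theory, T.IsComplete → (∀ S : L2.Structure ℕ,
      @Theory.Model L2 ℕ S T → Eqf (g1 S) (g2 S)) → VaughtF L2 T)
    (L : FirstOrder.Language.{0, 0}) (hL : Countable L.Symbols) (T : L.Theory) :
    VaughtF L T := by
  have := countable_L2
  exact all_of_LG (red_eqf fun T hT => compl hV T hT) L hL T

end Pool.Agent.H2.VC.Sh
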