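import Pool.Agent.H2.VC.Tower

set_option autoImplicit false

/-!
Structures on `ℕ` with a tower of semilinear preorders and isomorphisms between parts of them; the
code, a structure with an action of the free group.
-/

namespace Pool.Agent.H2.VC

open Pool.Agent.Y560.TH (XB HD IsoB HDr)

/-- Structures on `ℕ`: binary relations and unary predicates. -/
abbrev ZB : Type := (ℕ → ℕ → ℕ → Bool) × (ℕ → ℕ → Bool)

/-- `σ` is an isomorphism from `x` to `y`. -/
def IsoZ (σ : Equiv.Perm ℕ) (x y : ZB) : Prop :=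
  (∀ i m n, y.1 i (σ m) (σ n) = x.1 i m n) ∧ ∀ i m, y.2 i (σ m) = x.2 i m

/-- the kind of a relation: a member of the tower, a letter with its level, or a unary relation -/
inductive Kd : Type
  | lev : Kd
  | mp (e : Option ℕ) : Kd
  | una : Kd

/-- the relations of the structure -/
def Re (x : ZB) (i m n : ℕ) : Prop := x.1 i m n = true

/-- the relation with a given level -/
def Lr (K : ℕ → Kd) (x : ZB) : Option ℕ → ℕ → ℕ → Prop
  | none, m, n => m = n
  | some k, m, n => (K k = Kd.lev ∧ Re x k m n) ∨ (K k ≠ Kd.lev ∧ m = n)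

/-- the first relation is finer than the second one -/
def Fin2 (s t : ℕ → ℕ → Prop) : Prop := ∀ m n, s m n → Eqv t m n

/-- the first relation is equal to the second one or finer -/
def Le2 (s t : ℕ → ℕ → Prop) : Prop := (∀ m n, s m n ↔ t m n) ∨ Fin2 s t

/-- the letter `j` is active at the level `k` -/
def Act (K : ℕ → Kd) (x : ZB) (k : Option ℕ) (j : ℕ) : Prop :=
  ∃ e, K j = Kd.mp e ∧ Le2 (Lr K x e) (Lr K x k)

/-- the levels by their numbers -/
def ix : ℕ → Option ℕ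
  | 0 => none
  | k + 1 => some k

/-- the numbers of the levels -/
def xi : Option ℕ → ℕ
  | none => 0
  | some k => k + 1

theorem ix_xi (e : Option ℕ) : ix (xi e) = e := by
  cases e <;> rfl

/-- the structures of the class -/
structure Good (K : ℕ → Kd) (x : ZB) : Prop where
  tow : Tow fun i => Lr K x (ix i)
  pres : ∀ k, Pres (Lr K x k) (Act K x k) (Re x)
  down : ∀ k, Down (Lr K x k) (Act K x k) (Re x)
  sat : ∀ j e, K j = Kd.mp e → ∀ m n m' n', Re x j m n → Eqv (Lr K x e) m m' →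
    Eqv (Lr K x e) n n' → Re x j m' n'
  una : ∀ i, K i = Kd.una → ∀ m n, x.1 i m n = x.1 i m 0

/-- the relations of the code -/
def Ph (K : ℕ → Kd) (x : ZB) (k : Option ℕ) (g : FreeGroup ℕ) (m n : ℕ) : Prop :=
  Gen (Lr K x k) (Act K x k) (Re x) g m n

section iso

variable {K : ℕ → Kd} {x y : ZB} {σ : Equiv.Perm ℕ}

theorem IsoZ.re (h : IsoZ σ x y) (i m n : ℕ) : Re y i (σ m) (σ n) ↔ Re x i m n := by
  unfold Re
  rw [h.1]

theorem IsoZ.lr (h : IsoZ σ x y) (k : Option ℕ) (m n : ℕ) :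
    Lr K y k (σ m) (σ n) ↔ Lr K x k m n := by
  cases k with
  | none => exact σ.injective.eq_iff
  | some k =>
    show (_ ∧ Re y k (σ m) (σ n)) ∨ (_ ∧ σ m = σ n) ↔ (_ ∧ Re x k m n) ∨ (_ ∧ m = n)
    rw [h.re, σ.injective.eq_iff]

theorem forall_perm {P : ℕ → ℕ → Prop} (σ : Equiv.Perm ℕ) :
    (∀ m n, P m n) ↔ ∀ m n, P (σ m) (σ n) := by
  constructor
  · exact fun h m n => h _ _
  · intro h m n
    have := h (σ.symm m) (σ.symm n)
    rw [σ.apply_symm_apply, σ.apply_symm_apply] at this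
    exact this

theorem IsoZ.act (h : IsoZ σ x y) (k : Option ℕ) (j : ℕ) : Act K y k j ↔ Act K x k j := by
  have h1 : ∀ e, Le2 (Lr K y e) (Lr K y k) ↔ Le2 (Lr K x e) (Lr K x k) := by
    intro e
    refine or_congr ?_ ?_
    · rw [forall_perm σ]
      simp only [h.lr]
    · unfold Fin2 Eqv
      rw [forall_perm σ]
      simp only [h.lr]
  unfold Act
  simp only [h1]

theorem IsoZ.rl (h : IsoZ σ x y) (l : ℕ × Bool) (m n : ℕ) :
    Rl (Re y) l (σ m) (σ n) ↔ Rl (Re x) l m n := by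
  unfold Rl
  split_ifs
  · exact h.re _ _ _
  · exact h.re _ _ _

theorem IsoZ.pth (h : IsoZ σ x y) (k : Option ℕ) : ∀ (ls : List (ℕ × Bool)) (m n : ℕ),
    Pth (Lr K y k) (Act K y k) (Re y) ls (σ m) (σ n) ↔
      Pth (Lr K x k) (Act K x k) (Re x) ls m n
  | [], m, n => h.lr k m n
  | l :: ls, m, n => by
    refine and_congr (h.act k l.1) ?_
    constructor
    · rintro ⟨a, b, h1, h2, h3⟩
      obtain ⟨a, rfl⟩ := σ.surjective a
      obtain ⟨b, rfl⟩ := σ.surjective b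
      exact ⟨a, b, (h.lr k _ _).1 h1, (h.rl l _ _).1 h2, (h.pth k ls _ _).1 h3⟩
    · rintro ⟨a, b, h1, h2, h3⟩
      exact ⟨σ a, σ b, (h.lr k _ _).2 h1, (h.rl l _ _).2 h2, (h.pth k ls _ _).2 h3⟩

theorem IsoZ.ph (h : IsoZ σ x y) (k : Option ℕ) (g : FreeGroup ℕ) (m n : ℕ) :
    Ph K y k g (σ m) (σ n) ↔ Ph K x k g m n := h.pth k g.toWord m n

theorem isoZ_symm (h : IsoZ σ x y) : IsoZ σ.symm y x := by
  refine ⟨fun i m n => ?_, fun i m => ?_⟩
  · rw [← h.1, σ.apply_symm_apply, σ.apply_symm_apply]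
  · rw [← h.2, σ.apply_symm_apply]

theorem isoZ_trans {τ : Equiv.Perm ℕ} {z : ZB} (h : IsoZ σ x y) (h' : IsoZ τ y z) :
    IsoZ (σ.trans τ) x z :=
  ⟨fun i m n => (h'.1 i _ _).trans (h.1 i m n), fun i m => (h'.2 i _).trans (h.2 i m)⟩

end iso

/-- the letter is determined by the code -/
theorem Good.letter {K : ℕ → Kd} {x : ZB} (h : Good K x) {j : ℕ} {e : Option ℕ}
    (he : K j = Kd.mp e) (m n : ℕ) :
    (Ph K x e (FreeGroup.of j) m n ∧ Ph K x e (FreeGroup.of j)⁻¹ n m) ↔ Re x j m n := by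
  have ha : Act K x e j := ⟨e, he, Or.inl fun _ _ => Iff.rfl⟩
  have hp := h.pres e
  constructor
  · rintro ⟨h1, h2⟩
    obtain ⟨-, a, b, k1, k2, k3⟩ := gen_letter.1 h1
    obtain ⟨-, c, d, k4, k5, k6⟩ := gen_letter_inv.1 h2
    -- `m ≤ a`, `R a b`, `b ≤ n ≤ c`, `R d c`, `d ≤ m`
    have k7 : Lr K x e d a := hp.trans _ _ _ k6 k1
    have k8 : Lr K x e c b := (hp.pres j ha _ _ _ _ k5 k2).1 k7
    have k9 : Lr K x e b c := hp.trans _ _ _ k3 k4
    have k10 : Lr K x e a d := (hp.pres j ha _ _ _ _ k2 k5).2 k9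
    exact h.sat j e he a b m n k2 ⟨hp.trans _ _ _ k10 k6, k1⟩ ⟨k3, hp.trans _ _ _ k4 k8⟩
  · intro h1
    exact ⟨gen_letter.2 ⟨ha, m, n, hp.refl m, h1, hp.refl n⟩,
      gen_letter_inv.2 ⟨ha, n, m, hp.refl n, h1, hp.refl m⟩⟩

section code

/-- `k` is an element of the coded structure. -/
def Pe (y : XB (FreeGroup ℕ)) (k : ℕ) : Prop := y.2.2 0 k = true

/-- The elements. -/
noncomputable def enp (y : XB (FreeGroup ℕ)) (m : ℕ) : ℕ := Nat.nth (fun k => Pe y k) m

/-- the relations of the coded structure -/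
def Dr (K : ℕ → Kd) (y : XB (FreeGroup ℕ)) (i m n : ℕ) : Prop :=
  match K i with
  | Kd.lev => y.1 (i + 1) (enp y m) (enp y n) = true
  | Kd.mp e => y.1 (xi e) (enp y m) (y.2.1 (FreeGroup.of i) (enp y n)) = true ∧
      y.1 (xi e) (y.2.1 (FreeGroup.of i) (enp y n)) (enp y m) = true
  | Kd.una => y.2.2 (2 * i + 1) (enp y m) = true

open Classical in
/-- the decoding map -/
noncomputable def DE (K : ℕ → Kd) (y : XB (FreeGroup ℕ)) : ZB :=
  (fun i m n => decide (Dr K y i m n), fun i m => y.2.2 (2 * i + 2) (enp y m))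

theorem re_DE (K : ℕ → Kd) (y : XB (FreeGroup ℕ)) (i m n : ℕ) :
    Re (DE K y) i m n ↔ Dr K y i m n := by
  classical
  exact decide_eq_true_iff

/-- The codes. -/
structure GE (K : ℕ → Kd) (y : XB (FreeGroup ℕ)) : Prop where
  one : ∀ k, y.2.1 1 k = k
  mul : ∀ γ δ k, y.2.1 (γ * δ) k = y.2.1 γ (y.2.1 δ k)
  auto : ∀ γ i k l, y.1 i (y.2.1 γ k) (y.2.1 γ l) = y.1 i k l
  cov : ∀ k, ∃ γ, Pe y (y.2.1 γ k)
  free : ∀ γ k, Pe y k → Pe y (y.2.1 γ k) → γ = 1
  inf : {k | Pe y k}.Infinite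
  sub : ∀ i k, y.2.2 (i + 1) k = true → Pe y k
  nor : ∀ i, K i ≠ Kd.una → ∀ k, y.2.2 (2 * i + 1) k = false
  con : ∀ i g m n, y.1 i (enp y m) (y.2.1 g (enp y n)) = true ↔ Ph K (DE K y) (ix i) g m n

variable {K : ℕ → Kd} {y y' : XB (FreeGroup ℕ)}

theorem enp_inj (h : {k | Pe y k}.Infinite) {m n : ℕ} (hmn : enp y m = enp y n) : m = n :=
  Nat.nth_injective (p := fun k => Pe y k) h hmn

theorem enp_mem (h : {k | Pe y k}.Infinite) (m : ℕ) : Pe y (enp y m) :=
  Nat.nth_mem_of_infinite (p := fun k => Pe y k) h m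

theorem enp_sur {k : ℕ} (hk : Pe y k) : ∃ m, enp y m = k := by
  classical
  exact ⟨Nat.count (fun k => Pe y k) k, Nat.nth_count hk⟩

/-- The coded structures of isomorphic codes are isomorphic. -/
theorem de_iso {τ : Equiv.Perm ℕ} (hi : IsoB τ y y') (hinf : {k | Pe y k}.Infinite) :
    {k | Pe y' k}.Infinite ∧ ∃ σ : Equiv.Perm ℕ, (∀ m, enp y' (σ m) = τ (enp y m)) ∧
      IsoZ σ (DE K y) (DE K y') := by
  classical
  obtain ⟨h1, h2, h3⟩ := hi
  have hPe : ∀ k, Pe y' (τ k) ↔ Pe y k := fun k => by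
    unfold Pe
    rw [h3]
  have hinf' : {k | Pe y' k}.Infinite := by
    refine (hinf.image τ.injective.injOn).mono ?_
    rintro _ ⟨k, hk, rfl⟩
    exact (hPe k).2 hk
  refine ⟨hinf', ?_⟩
  choose f hf using fun m => enp_sur ((hPe _).2 (enp_mem hinf m))
  have hbij : Function.Bijective f := by
    constructor
    · intro m n hmn
      have e : τ (enp y m) = τ (enp y n) := by rw [← hf m, ← hf n, hmn]
      exact enp_inj hinf (τ.injective e)
    · intro m'
      obtain ⟨k, hk⟩ := τ.surjective (enp y' m')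
      have hk' : Pe y k := (hPe k).1 (by rw [hk]; exact enp_mem hinf' m')
      obtain ⟨m, hm⟩ := enp_sur hk'
      refine ⟨m, enp_inj hinf' ?_⟩
      rw [hf, hm, hk]
  refine ⟨Equiv.ofBijective f hbij, hf, ?_, ?_⟩
  · intro i m n
    rw [Bool.eq_iff_iff]
    show Re (DE K y') i (f m) (f n) ↔ Re (DE K y) i m n
    rw [re_DE, re_DE]
    unfold Dr
    cases K i with
    | lev =>
      show y'.1 _ (enp y' (f m)) (enp y' (f n)) = true ↔ y.1 _ (enp y m) (enp y n) = true
      rw [hf, hf, h1]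
    | mp e =>
      show (y'.1 _ (enp y' (f m)) (y'.2.1 _ (enp y' (f n))) = true ∧
        y'.1 _ (y'.2.1 _ (enp y' (f n))) (enp y' (f m)) = true) ↔ _ ∧ _
      rw [hf, hf, h2, h1, h1]
    | una =>
      show y'.2.2 _ (enp y' (f m)) = true ↔ y.2.2 _ (enp y m) = true
      rw [hf, h3]
  · intro i m
    show y'.2.2 _ (enp y' (f m)) = y.2.2 _ (enp y m)
    rw [hf, h3]

/-- Invariance of the codes. -/
theorem ge_inv {τ : Equiv.Perm ℕ} (h : GE K y) (hi : IsoB τ y y') :
    GE K y' ∧ ∃ σ : Equiv.Perm ℕ, IsoZ σ (DE K y) (DE K y') := by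
  obtain ⟨hinf', σ, hσ, hσZ⟩ := de_iso (K := K) hi h.inf
  obtain ⟨h1, h2, h3⟩ := hi
  have hPe : ∀ k, Pe y' (τ k) ↔ Pe y k := fun k => by
    unfold Pe
    rw [h3]
  refine ⟨⟨?_, ?_, ?_, ?_, ?_, hinf', ?_, ?_, ?_⟩, σ, hσZ⟩
  · intro k
    obtain ⟨k, rfl⟩ := τ.surjective k
    rw [h2, h.one]
  · intro γ δ k
    obtain ⟨k, rfl⟩ := τ.surjective k
    rw [h2, h2, h2, h.mul]
  · intro γ i k l
    obtain ⟨k, rfl⟩ := τ.surjective k
    obtain ⟨l, rfl⟩ := τ.surjective l
    rw [h2, h2, h1, h1, h.auto]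
  · intro k
    obtain ⟨k, rfl⟩ := τ.surjective k
    obtain ⟨γ, hγ⟩ := h.cov k
    exact ⟨γ, by rw [h2, hPe]; exact hγ⟩
  · intro γ k
    obtain ⟨k, rfl⟩ := τ.surjective k
    rw [h2, hPe, hPe]
    exact h.free γ k
  · intro i k hk
    obtain ⟨k, rfl⟩ := τ.surjective k
    rw [h3] at hk
    exact (hPe k).2 (h.sub i k hk)
  · intro i hi k
    obtain ⟨k, rfl⟩ := τ.surjective k
    rw [h3]
    exact h.nor i hi k
  · intro i g m n
    obtain ⟨m, rfl⟩ := σ.surjective m
    obtain ⟨n, rfl⟩ := σ.surjective n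
    rw [hσ, hσ, h2, h1, hσZ.ph]
    exact h.con i g m n

theorem GE.act_inv (h : GE K y) (γ : FreeGroup ℕ) (m : ℕ) :
    y.2.1 γ (y.2.1 γ⁻¹ m) = m ∧ y.2.1 γ⁻¹ (y.2.1 γ m) = m := by
  constructor
  · rw [← h.mul, mul_inv_cancel, h.one]
  · rw [← h.mul, inv_mul_cancel, h.one]

/-- the coordinates of the elements of the code -/
theorem GE.coord (h : GE K y) (k : ℕ) : ∃ p : FreeGroup ℕ × ℕ, k = y.2.1 p.1 (enp y p.2) := by
  obtain ⟨γ, hγ⟩ := h.cov k
  obtain ⟨m, hm⟩ := enp_sur hγ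
  exact ⟨(γ⁻¹, m), by rw [hm, (h.act_inv γ k).2]⟩

theorem GE.coord_inj (h : GE K y) {w v : FreeGroup ℕ} {m n : ℕ}
    (hmn : y.2.1 w (enp y m) = y.2.1 v (enp y n)) : w = v ∧ m = n := by
  have h1 : y.2.1 (v⁻¹ * w) (enp y m) = enp y n := by
    rw [h.mul, hmn, (h.act_inv v _).2]
  have h2 : v⁻¹ * w = 1 := h.free _ _ (enp_mem h.inf m) (by rw [h1]; exact enp_mem h.inf n)
  have h3 : w = v := by
    have := congrArg (fun g => v * g) h2
    simpa [← mul_assoc] using this
  refine ⟨h3, ?_⟩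
  rw [h2, h.one] at h1
  exact enp_inj h.inf h1

theorem GE.rel (h : GE K y) (i : ℕ) (w v : FreeGroup ℕ) (m n : ℕ) :
    y.1 i (y.2.1 w (enp y m)) (y.2.1 v (enp y n)) = true ↔
      Ph K (DE K y) (ix i) (w⁻¹ * v) m n := by
  rw [← h.con, ← h.auto w⁻¹, (h.act_inv w _).2, ← h.mul]

/-- Uniqueness of the code. -/
theorem ge_uni (h : GE K y) (h' : GE K y') {σ : Equiv.Perm ℕ}
    (hi : IsoZ σ (DE K y) (DE K y')) : ∃ τ : Equiv.Perm ℕ, IsoB τ y y' := by
  choose c hc using h.coord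
  choose c' hc' using h'.coord
  let f : ℕ → ℕ := fun k => y'.2.1 (c k).1 (enp y' (σ (c k).2))
  have hf : ∀ w m, f (y.2.1 w (enp y m)) = y'.2.1 w (enp y' (σ m)) := by
    intro w m
    obtain ⟨h1, h2⟩ := h.coord_inj (hc (y.2.1 w (enp y m)))
    show y'.2.1 (c _).1 (enp y' (σ (c _).2)) = _
    rw [← h1, ← h2]
  have hbij : Function.Bijective f := by
    constructor
    · intro k l hkl
      obtain ⟨h1, h2⟩ := h'.coord_inj hkl
      rw [hc k, hc l, h1, σ.injective h2]
    · intro k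
      obtain ⟨m, hm⟩ := σ.surjective (c' k).2
      refine ⟨y.2.1 (c' k).1 (enp y m), ?_⟩
      rw [hf, hm, ← hc']
  refine ⟨Equiv.ofBijective f hbij, ?_, ?_, ?_⟩
  · intro i k l
    show y'.1 i (f k) (f l) = y.1 i k l
    rw [Bool.eq_iff_iff]
    conv_rhs => rw [hc k, hc l]
    rw [h.rel]
    show y'.1 i (y'.2.1 _ (enp y' _)) (y'.2.1 _ (enp y' _)) = true ↔ _
    rw [h'.rel, hi.ph]
  · intro γ k
    show y'.2.1 γ (f k) = f (y.2.1 γ k)
    conv_rhs => rw [hc k, ← h.mul, hf]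
    show y'.2.1 γ (y'.2.1 _ _) = _
    rw [← h'.mul]
  · intro i k
    show y'.2.2 i (f k) = y.2.2 i k
    have hPe : ∀ (y : XB (FreeGroup ℕ)), GE K y → ∀ w m, Pe y (y.2.1 w (enp y m)) → w = 1 :=
      fun y h w m hw => h.free w _ (enp_mem h.inf m) hw
    rcases c_eq : c k with ⟨w, m⟩
    have hk : k = y.2.1 w (enp y m) := by
      have := hc k
      rw [c_eq] at this
      exact this
    have hfk : f k = y'.2.1 w (enp y' (σ m)) := by
      rw [hk]
      exact hf w m
    rw [hfk]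
    by_cases hw : w = 1
    · subst hw
      rw [h.one] at hk
      rw [h'.one, hk]
      cases i with
      | zero =>
        have h1 : Pe y (enp y m) := enp_mem h.inf m
        have h2 : Pe y' (enp y' (σ m)) := enp_mem h'.inf _
        unfold Pe at h1 h2
        rw [h1, h2]
      | succ i =>
        rcases Nat.even_or_odd' i with ⟨j, rfl | rfl⟩
        · -- a unary relation
          by_cases hj : K j = Kd.una
          · have h1 := hi.1 j m m
            rw [Bool.eq_iff_iff] at h1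
            have h1' : Re (DE K y') j (σ m) (σ m) ↔ Re (DE K y) j m m := h1
            rw [re_DE, re_DE] at h1'
            unfold Dr at h1'
            rw [hj] at h1'
            rw [Bool.eq_iff_iff]
            exact h1'
          · rw [h.nor j hj, h'.nor j hj]
        · exact hi.2 j m
    · have h1 : ¬ Pe y k := fun hc => hw (hPe y h w m (hk ▸ hc))
      have h2 : ¬ Pe y' (y'.2.1 w (enp y' (σ m))) := fun hc => hw (hPe y' h' w _ hc)
      cases i with
      | zero =>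
        unfold Pe at h1 h2
        rw [Bool.not_eq_true] at h1 h2
        rw [h1, h2]
      | succ i =>
        have h3 : y.2.2 (i + 1) k = false := by
          rw [← Bool.not_eq_true]
          exact fun hc => h1 (h.sub i k hc)
        have h4 : y'.2.2 (i + 1) (y'.2.1 w (enp y' (σ m))) = false := by
          rw [← Bool.not_eq_true]
          exact fun hc => h2 (h'.sub i _ hc)
        rw [h3, h4]

/-- monotonicity of the relations of the code -/
theorem Good.ph_mono {x : ZB} (h : Good K x) {k k' : Option ℕ}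
    (hk : Fin2 (Lr K x k) (Lr K x k')) {g : FreeGroup ℕ} {m n : ℕ} (h1 : Ph K x k g m n) :
    Ph K x k' g m n ∧ Ph K x k' g⁻¹ n m := by
  have ha : ∀ j, Act K x k j → Act K x k' j := by
    rintro j ⟨e, he, h2⟩
    refine ⟨e, he, Or.inr fun m n hmn => ?_⟩
    rcases h2 with h2 | h2
    · exact hk m n ((h2 m n).1 hmn)
    · exact hk m n (h2 m n hmn).1
  have hp := h.pres k'
  have hE : Pres (Eqv (Lr K x k')) (Act K x k') (Re x) := by
    refine ⟨fun m => ⟨hp.refl m, hp.refl m⟩, fun m n k h1 h2 =>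
      ⟨hp.trans _ _ _ h1.1 h2.1, hp.trans _ _ _ h2.2 h1.2⟩, fun j hj m n m' n' h1 h2 => ?_⟩
    unfold Eqv
    rw [hp.pres j hj m n m' n' h1 h2, hp.pres j hj n m n' m' h2 h1]
  have h2 : Pth (Eqv (Lr K x k')) (Act K x k') (Re x) g.toWord m n := pth_mono hk ha _ h1
  have h3 := hE.pth_symm (fun m n h => ⟨h.2, h.1⟩) _ h2
  refine ⟨pth_mono (fun _ _ h => h.1) (fun _ h => h) _ h2, hp.gen_of ?_
    (pth_mono (fun _ _ h => h.1) (fun _ h => h) _ h3)⟩
  rw [mk_inv, FreeGroup.mk_toWord]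

/-- The code is hereditarily decomposable. -/
theorem ge_hd (h : GE K y) (hG : Good K (DE K y)) : HD y := by
  refine ⟨Tow.hd ⟨?_, ?_, ?_, ?_⟩, h.one, h.mul, h.auto⟩
  · intro i k
    obtain ⟨⟨w, m⟩, rfl⟩ := h.coord k
    rw [h.rel, inv_mul_cancel]
    exact gen_one.2 (hG.tow.refl i m)
  · intro i a b c
    obtain ⟨⟨w, m⟩, rfl⟩ := h.coord a
    obtain ⟨⟨v, n⟩, rfl⟩ := h.coord b
    obtain ⟨⟨u, k⟩, rfl⟩ := h.coord c
    rw [h.rel, h.rel, h.rel]
    intro h1 h2
    have h3 := (hG.pres (ix i)).gen_mul h1 h2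
    have e : w⁻¹ * v * (v⁻¹ * u) = w⁻¹ * u := by group
    rw [e] at h3
    exact h3
  · intro i a b c
    obtain ⟨⟨w, m⟩, rfl⟩ := h.coord a
    obtain ⟨⟨v, n⟩, rfl⟩ := h.coord b
    obtain ⟨⟨u, k⟩, rfl⟩ := h.coord c
    rw [h.rel, h.rel, h.rel, h.rel]
    intro h1 h2
    have h3 := (hG.pres (ix i)).semi (hG.down (ix i)) (hG.tow.semi i) h1 h2
    have e1 : w⁻¹ * u * (v⁻¹ * u)⁻¹ = w⁻¹ * v := by group
    have e2 : v⁻¹ * u * (w⁻¹ * u)⁻¹ = v⁻¹ * w := by group
    rw [e1, e2] at h3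
    exact h3
  · intro i k
    have key : ∀ i k, (Fin2 (Lr K (DE K y) (ix i)) (Lr K (DE K y) (ix k))) →
        ∀ m n, y.1 i m n = true → Eqv (fun m n => y.1 k m n = true) m n := by
      intro i k hik a b
      obtain ⟨⟨w, m⟩, rfl⟩ := h.coord a
      obtain ⟨⟨v, n⟩, rfl⟩ := h.coord b
      show y.1 i _ _ = true → y.1 k _ _ = true ∧ y.1 k _ _ = true
      rw [h.rel, h.rel, h.rel]
      intro h1
      obtain ⟨h2, h3⟩ := hG.ph_mono hik h1
      refine ⟨h2, ?_⟩
      have e : (w⁻¹ * v)⁻¹ = v⁻¹ * w := by group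
      rw [e] at h3
      exact h3
    rcases hG.tow.chain i k with h1 | h1 | h1
    · left
      intro a b
      obtain ⟨⟨w, m⟩, rfl⟩ := h.coord a
      obtain ⟨⟨v, n⟩, rfl⟩ := h.coord b
      rw [h.rel, h.rel]
      have e : Lr K (DE K y) (ix i) = Lr K (DE K y) (ix k) := by
        funext m n
        exact propext (h1 m n)
      unfold Ph Act
      rw [e]
    · exact Or.inr (Or.inl (key i k h1))
    · exact Or.inr (Or.inr (key k i h1))

/-- Existence of the code. -/
theorem ge_ex {x : ZB} (hx : Good K x) :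
    ∃ y : XB (FreeGroup ℕ), GE K y ∧ ∃ σ : Equiv.Perm ℕ, IsoZ σ (DE K y) x := by
  classical
  obtain ⟨β⟩ : Nonempty (FreeGroup ℕ × ℕ ≃ ℕ) := by
    have : Countable (FreeGroup ℕ) := by
      have h : Function.Surjective (fun L : List (ℕ × Bool) => FreeGroup.mk L) := by
        intro x
        refine Quot.inductionOn x fun L => ⟨L, rfl⟩
      exact h.countable
    exact nonempty_equiv_of_countable
  let uq : ℕ → ℕ → Bool := fun i m =>
    if i % 2 = 0 then (if K (i / 2) = Kd.una then x.1 (i / 2) m 0 else false)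
    else x.2 (i / 2) m
  let y : XB (FreeGroup ℕ) :=
    (fun i p q => decide (Ph K x (ix i) ((β.symm p).1⁻¹ * (β.symm q).1) (β.symm p).2
      (β.symm q).2),
     fun γ p => β (γ * (β.symm p).1, (β.symm p).2),
     fun i p => if i = 0 then decide ((β.symm p).1 = 1)
      else decide ((β.symm p).1 = 1) && uq (i - 1) (β.symm p).2)
  have y1 : ∀ i w v m n, y.1 i (β (w, m)) (β (v, n)) = true ↔ Ph K x (ix i) (w⁻¹ * v) m n := by
    intro i w v m n
    show decide _ = true ↔ _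
    rw [decide_eq_true_iff, β.symm_apply_apply, β.symm_apply_apply]
  have y2 : ∀ γ w m, y.2.1 γ (β (w, m)) = β (γ * w, m) := by
    intro γ w m
    show β (γ * (β.symm (β (w, m))).1, (β.symm (β (w, m))).2) = _
    rw [β.symm_apply_apply]
  have yP : ∀ w m, Pe y (β (w, m)) ↔ w = 1 := by
    intro w m
    unfold Pe
    simp [y]
  have y3 : ∀ i m, y.2.2 (i + 1) (β (1, m)) = uq i m := by
    intro i m
    simp [y]
  have y4 : ∀ i w m, w ≠ 1 → y.2.2 (i + 1) (β (w, m)) = false := by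
    intro i w m hw
    simp [y, hw]
  have hinf : {k | Pe y k}.Infinite := by
    have h1 : Function.Injective fun m : ℕ => β ((1 : FreeGroup ℕ), m) := fun m n h => by
      have := β.injective h
      simpa using this
    refine (Set.infinite_range_of_injective h1).mono ?_
    rintro _ ⟨m, rfl⟩
    exact (yP 1 m).2 rfl
  -- the enumeration
  have hen : ∀ m, ∃ m', enp y m = β (1, m') := by
    intro m
    have h1 := enp_mem hinf m
    obtain ⟨⟨w, m'⟩, hw⟩ := β.surjective (enp y m)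
    rw [← hw, yP] at h1
    subst h1
    exact ⟨m', hw.symm⟩
  choose f hf using hen
  have hbij : Function.Bijective f := by
    constructor
    · intro m n hmn
      refine enp_inj hinf ?_
      rw [hf, hf, hmn]
    · intro m'
      obtain ⟨m, hm⟩ := enp_sur ((yP 1 m').2 rfl)
      refine ⟨m, ?_⟩
      rw [hf] at hm
      have := β.injective hm
      simpa using this
  let σ : Equiv.Perm ℕ := Equiv.ofBijective f hbij
  have hσ : ∀ m, enp y m = β (1, σ m) := hf
  have hZ : IsoZ σ (DE K y) x := by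
    constructor
    · intro i m n
      rw [Bool.eq_iff_iff]
      show _ ↔ Re (DE K y) i m n
      rw [re_DE]
      unfold Dr
      have hl : ∀ i, K i = Kd.lev → (Lr K x (some i) (σ m) (σ n) ↔ x.1 i (σ m) (σ n) = true) := by
        intro i hi
        show (_ ∧ _) ∨ (_ ∧ _) ↔ _
        simp only [hi, true_and, ne_eq, not_true_eq_false, false_and, or_false]
        exact Iff.rfl
      cases hKi : K i with
      | lev =>
        show _ ↔ y.1 (i + 1) (enp y m) (enp y n) = true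
        rw [hσ, hσ, y1, inv_one, one_mul]
        show _ ↔ Gen _ _ _ 1 _ _
        rw [gen_one]
        exact (hl i hKi).symm
      | mp e =>
        show _ ↔ (y.1 (xi e) (enp y m) (y.2.1 _ (enp y n)) = true ∧
          y.1 (xi e) (y.2.1 _ (enp y n)) (enp y m) = true)
        rw [hσ, hσ, y2, y1, y1, ix_xi, inv_one, one_mul, mul_one, mul_one]
        exact (hx.letter hKi _ _).symm
      | una =>
        show _ ↔ y.2.2 (2 * i + 1) (enp y m) = true
        rw [hσ, y3, hx.una i hKi]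
        have : uq (2 * i) (σ m) = x.1 i (σ m) 0 := by
          show (if 2 * i % 2 = 0 then (if K (2 * i / 2) = Kd.una then x.1 (2 * i / 2) (σ m) 0
            else false) else _) = _
          rw [if_pos (by omega), show 2 * i / 2 = i by omega, if_pos hKi]
        rw [this]
    · intro i m
      show x.2 i (σ m) = y.2.2 (2 * i + 2) (enp y m)
      rw [hσ, show 2 * i + 2 = 2 * i + 1 + 1 from rfl, y3]
      show _ = (if (2 * i + 1) % 2 = 0 then _ else x.2 ((2 * i + 1) / 2) (σ m))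
      rw [if_neg (by omega), show (2 * i + 1) / 2 = i by omega]
  refine ⟨y, ⟨?_, ?_, ?_, ?_, ?_, hinf, ?_, ?_, ?_⟩, σ, hZ⟩
  · intro k
    obtain ⟨⟨w, m⟩, rfl⟩ := β.surjective k
    rw [y2, one_mul]
  · intro γ δ k
    obtain ⟨⟨w, m⟩, rfl⟩ := β.surjective k
    rw [y2 (γ * δ), y2 δ, y2 γ, mul_assoc]
  · intro γ i k l
    obtain ⟨⟨w, m⟩, rfl⟩ := β.surjective k
    obtain ⟨⟨v, n⟩, rfl⟩ := β.surjective l
    rw [y2, y2, Bool.eq_iff_iff, y1, y1]
    have e : (γ * w)⁻¹ * (γ * v) = w⁻¹ * v := by group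
    rw [e]
  · intro k
    obtain ⟨⟨w, m⟩, rfl⟩ := β.surjective k
    refine ⟨w⁻¹, ?_⟩
    rw [y2, yP, inv_mul_cancel]
  · intro γ k
    obtain ⟨⟨w, m⟩, rfl⟩ := β.surjective k
    rw [y2, yP, yP]
    rintro rfl h
    rw [mul_one] at h
    exact h
  · intro i k
    obtain ⟨⟨w, m⟩, rfl⟩ := β.surjective k
    intro h
    rw [yP]
    by_contra hw
    rw [y4 i w m hw] at h
    exact absurd h Bool.false_ne_true
  · intro i hi k
    obtain ⟨⟨w, m⟩, rfl⟩ := β.surjective k
    by_cases hw : w = 1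
    · subst hw
      rw [y3]
      show (if 2 * i % 2 = 0 then (if K (2 * i / 2) = Kd.una then _ else false) else _) = _
      rw [if_pos (by omega), show 2 * i / 2 = i by omega, if_neg hi]
    · exact y4 _ w m hw
  · intro i g m n
    rw [hσ, hσ, y2, y1, inv_one, one_mul, mul_one, hZ.ph]

end code

end Pool.Agent.H2.VC
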