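import Pool.Agent.H2.VC.Code
import Pool.Graph.R_seed8.Y560.TH.Gen
import Pool.Graph.R_seed8.Y576.TH.Tdm
import Pool.Graph.R_seed8.W889.SD.Enum
import Pool.Graph.R_seed8.Y560.TF.All
import Pool.Graph.R_seed8.Y259.TH.TDA
import Pool.Graph.R_seed8.Y641.TH.Dec

set_option autoImplicit false

/-!
Measurability of the decoding map, and the dichotomy for the structures of the class.
-/

namespace Pool.Agent.H2.VC

open Set MeasureTheory
open Pool.Agent.Y560.TH (XB HD IsoB transfer S_TD)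
open Pool.Agent.W889.VC (BP)
open Pool.Agent.Y576.TH (isoB_symm isoB_trans analytic_isoB bsB b_1 b_2 b_3)

section

variable {Y : Type} [MeasurableSpace Y]

theorem bp_sub {g : Y → ℕ} {P : Y → ℕ → Prop} (hg : ∀ k, BP fun y => g y = k)
    (hP : ∀ k, BP fun y => P y k) : BP fun y => P y (g y) :=
  (BP.ex fun k => (hg k).and (hP k)).congr fun _ =>
    ⟨fun ⟨_, h1, h2⟩ => h1 ▸ h2, fun h => ⟨_, rfl, h⟩⟩

theorem bp_sub2 {g g' : Y → ℕ} {P : Y → ℕ → ℕ → Prop} (hg : ∀ k, BP fun y => g y = k)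
    (hg' : ∀ k, BP fun y => g' y = k) (hP : ∀ k l, BP fun y => P y k l) :
    BP fun y => P y (g y) (g' y) :=
  bp_sub (P := fun y k => P y k (g' y)) hg fun k => bp_sub (P := fun y l => P y k l) hg' (hP k)

end

theorem p1 (i m n : ℕ) : BP fun y : XB (FreeGroup ℕ) => y.1 i m n = true :=
  measurableSet_setOfPred.2 (b_1 i m n true)

theorem p2 (γ : FreeGroup ℕ) (m n : ℕ) : BP fun y : XB (FreeGroup ℕ) => y.2.1 γ m = n :=
  measurableSet_setOfPred.2 (b_2 γ m n)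

theorem p3 (i m : ℕ) : BP fun y : XB (FreeGroup ℕ) => y.2.2 i m = true :=
  measurableSet_setOfPred.2 (b_3 i m)

theorem p_enp (m k : ℕ) : BP fun y : XB (FreeGroup ℕ) => enp y m = k :=
  measurableSet_setOfPred.2 (Pool.Agent.Y560.TG.PL.meas_nth
    (fun (y : XB (FreeGroup ℕ)) k => y.2.2 0 k = true) (fun k => b_3 0 k) m k)

variable (K : ℕ → Kd)

theorem p_g (γ : FreeGroup ℕ) (m k : ℕ) :
    BP fun y : XB (FreeGroup ℕ) => y.2.1 γ (enp y m) = k :=
  bp_sub (g := fun y : XB (FreeGroup ℕ) => enp y m) (P := fun y l => y.2.1 γ l = k)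
    (p_enp m) fun l => p2 γ l k

theorem p_dr (i m n : ℕ) : BP fun y : XB (FreeGroup ℕ) => Dr K y i m n := by
  unfold Dr
  cases K i with
  | lev =>
    exact bp_sub2 (g := fun y : XB (FreeGroup ℕ) => enp y m)
      (g' := fun y : XB (FreeGroup ℕ) => enp y n) (P := fun y k l => y.1 (i + 1) k l = true)
      (p_enp m) (p_enp n) fun k l => p1 _ k l
  | mp e =>
    exact (bp_sub2 (g := fun y : XB (FreeGroup ℕ) => enp y m)
      (g' := fun y : XB (FreeGroup ℕ) => y.2.1 (FreeGroup.of i) (enp y n))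
      (P := fun y k l => y.1 (xi e) k l = true)
      (p_enp m) (p_g _ n) fun k l => p1 _ k l).and
      (bp_sub2 (g' := fun y : XB (FreeGroup ℕ) => enp y m)
      (g := fun y : XB (FreeGroup ℕ) => y.2.1 (FreeGroup.of i) (enp y n))
      (P := fun y k l => y.1 (xi e) k l = true)
      (p_g _ n) (p_enp m) fun k l => p1 _ k l)
  | una =>
    exact bp_sub (g := fun y : XB (FreeGroup ℕ) => enp y m)
      (P := fun y k => y.2.2 (2 * i + 1) k = true) (p_enp m) fun k => p3 _ k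

theorem p_re (i m n : ℕ) : BP fun y : XB (FreeGroup ℕ) => Re (DE K y) i m n :=
  (p_dr K i m n).congr fun y => (re_DE K y i m n).symm

theorem p_lr (k : Option ℕ) (m n : ℕ) :
    BP fun y : XB (FreeGroup ℕ) => Lr K (DE K y) k m n := by
  cases k with
  | none => exact BP.const _
  | some k => exact ((BP.const _).and (p_re K k m n)).or ((BP.const _).and (BP.const _))

theorem p_le (e k : Option ℕ) :
    BP fun y : XB (FreeGroup ℕ) => Le2 (Lr K (DE K y) e) (Lr K (DE K y) k) :=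
  (BP.all fun m => BP.all fun n => (p_lr K e m n).iff (p_lr K k m n)).or
    (BP.all fun m => BP.all fun n => (p_lr K e m n).imp ((p_lr K k m n).and (p_lr K k n m)))

theorem p_act (k : Option ℕ) (j : ℕ) : BP fun y : XB (FreeGroup ℕ) => Act K (DE K y) k j :=
  BP.ex fun e => (BP.const _).and (p_le K e k)

theorem p_rl (l : ℕ × Bool) (m n : ℕ) :
    BP fun y : XB (FreeGroup ℕ) => Rl (Re (DE K y)) l m n := by
  unfold Rl
  split_ifs
  · exact p_re K _ _ _
  · exact p_re K _ _ _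

theorem p_pth (k : Option ℕ) : ∀ (ls : List (ℕ × Bool)) (m n : ℕ),
    BP fun y : XB (FreeGroup ℕ) =>
      Pth (Lr K (DE K y) k) (Act K (DE K y) k) (Re (DE K y)) ls m n
  | [], m, n => p_lr K k m n
  | l :: ls, m, n => (p_act K k l.1).and (BP.ex fun a => BP.ex fun b =>
      (p_lr K k m a).and ((p_rl K l a b).and (p_pth k ls b n)))

theorem m_DE : Measurable (DE K : XB (FreeGroup ℕ) → ZB) := by
  refine Measurable.prodMk ?_ ?_
  · refine measurable_pi_lambda _ fun i => measurable_pi_lambda _ fun m =>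
      measurable_pi_lambda _ fun n => measurable_to_bool ?_
    exact p_re K i m n
  · refine measurable_pi_lambda _ fun i => measurable_pi_lambda _ fun m =>
      measurable_to_bool ?_
    exact bp_sub (g := fun y : XB (FreeGroup ℕ) => enp y m)
      (P := fun y k => y.2.2 (2 * i + 2) k = true) (p_enp m) fun k => p3 _ k

theorem cfg : Countable (FreeGroup ℕ) := by
  have h : Function.Surjective (fun L : List (ℕ × Bool) => FreeGroup.mk L) := by
    intro x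
    refine Quot.inductionOn x fun L => ⟨L, rfl⟩
  exact h.countable

theorem inf_iff (y : XB (FreeGroup ℕ)) : {k | Pe y k}.Infinite ↔ ∀ n, ∃ k, n < k ∧ Pe y k := by
  constructor
  · intro h n
    obtain ⟨k, h1, h2⟩ := h.exists_gt n
    exact ⟨k, h2, h1⟩
  · intro h hf
    obtain ⟨b, hb⟩ := hf.bddAbove
    obtain ⟨k, h1, h2⟩ := h b
    exact absurd (hb h2) (not_le.2 h1)

theorem m_GE : MeasurableSet {y : XB (FreeGroup ℕ) | GE K y} := by
  have : Countable (FreeGroup ℕ) := cfg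
  have q2 : ∀ (γ δ : FreeGroup ℕ) (k l : ℕ), BP fun y : XB (FreeGroup ℕ) =>
      y.2.1 γ (y.2.1 δ k) = l := fun γ δ k l =>
    bp_sub (g := fun y : XB (FreeGroup ℕ) => y.2.1 δ k) (P := fun y a => y.2.1 γ a = l)
      (p2 δ k) fun a => p2 γ a l
  have q3 : ∀ (γ : FreeGroup ℕ) (k : ℕ), BP fun y : XB (FreeGroup ℕ) => Pe y (y.2.1 γ k) :=
    fun γ k => bp_sub (g := fun y : XB (FreeGroup ℕ) => y.2.1 γ k) (P := fun y a => Pe y a)
      (p2 γ k) fun a => p3 0 a
  have h1 : BP fun y : XB (FreeGroup ℕ) =>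
      (∀ k, y.2.1 1 k = k) ∧
      (∀ (γ δ : FreeGroup ℕ) (k l : ℕ), y.2.1 (γ * δ) k = l ↔ y.2.1 γ (y.2.1 δ k) = l) ∧
      (∀ (γ : FreeGroup ℕ) (i k l : ℕ),
        y.1 i (y.2.1 γ k) (y.2.1 γ l) = true ↔ y.1 i k l = true) ∧
      (∀ k, ∃ γ, Pe y (y.2.1 γ k)) ∧
      (∀ γ k, Pe y k → Pe y (y.2.1 γ k) → γ = 1) ∧
      (∀ n, ∃ k, n < k ∧ Pe y k) ∧
      (∀ i k, y.2.2 (i + 1) k = true → Pe y k) ∧
      (∀ i, K i ≠ Kd.una → ∀ k, ¬ y.2.2 (2 * i + 1) k = true) ∧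
      (∀ i g m n, y.1 i (enp y m) (y.2.1 g (enp y n)) = true ↔
        Ph K (DE K y) (ix i) g m n) := by
    refine (BP.all fun k => p2 1 k k).and ?_
    refine (BP.all fun γ => BP.all fun δ => BP.all fun k => BP.all fun l =>
      (p2 _ k l).iff (q2 γ δ k l)).and ?_
    refine (BP.all fun γ => BP.all fun i => BP.all fun k => BP.all fun l =>
      (bp_sub2 (g := fun y : XB (FreeGroup ℕ) => y.2.1 γ k)
        (g' := fun y : XB (FreeGroup ℕ) => y.2.1 γ l) (P := fun y a b => y.1 i a b = true)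
        (p2 γ k) (p2 γ l) fun a b => p1 i a b).iff (p1 i k l)).and ?_
    refine (BP.all fun k => BP.ex fun γ => q3 γ k).and ?_
    refine (BP.all fun γ => BP.all fun k => (p3 0 k).imp ((q3 γ k).imp (BP.const _))).and ?_
    refine (BP.all fun n => BP.ex fun k => (BP.const _).and (p3 0 k)).and ?_
    refine (BP.all fun i => BP.all fun k => (p3 (i + 1) k).imp (p3 0 k)).and ?_
    refine (BP.all fun i => (BP.const _).imp (BP.all fun k => (p3 _ k).not)).and ?_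
    refine BP.all fun i => BP.all fun g => BP.all fun m => BP.all fun n => BP.iff ?_ ?_
    · exact bp_sub2 (g := fun y : XB (FreeGroup ℕ) => enp y m)
        (g' := fun y : XB (FreeGroup ℕ) => y.2.1 g (enp y n)) (P := fun y a b => y.1 i a b = true)
        (p_enp m) (p_g g n) fun a b => p1 i a b
    · exact p_pth K (ix i) g.toWord m n
  refine h1.congr fun y => ⟨?_, fun h => ?_⟩
  · rintro ⟨k1, k2, k3, k4, k5, k6, k7, k8, k9⟩
    exact ⟨k1, fun γ δ k => ((k2 γ δ k _).2 rfl), fun γ i k l => Bool.eq_iff_iff.2 (k3 γ i k l),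
      k4, k5, (inf_iff y).2 k6, k7, fun i hi k => by
        rw [← Bool.not_eq_true]
        exact k8 i hi k, k9⟩
  · exact ⟨h.one, fun γ δ k l => by rw [h.mul], fun γ i k l => by rw [h.auto], h.cov, h.free,
      (inf_iff y).1 h.inf, h.sub, fun i hi k => by rw [h.nor i hi k]; exact Bool.false_ne_true,
      h.con⟩

/-- the theorem on hereditarily decomposable structures with a group action -/
theorem std : S_TD := Pool.Agent.Y576.TH.t_TD (fun Δ _ _ => Pool.Agent.Y560.TF.out Δ)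
  Pool.Agent.Y259.TH.t_TDA Pool.Agent.Y641.TH.t_TDB

theorem bsZ : BorelSpace ZB := by
  have h0 : BorelSpace (ℕ → ℕ → Bool) := inferInstance
  have s0 : SecondCountableTopology (ℕ → ℕ → Bool) := inferInstance
  have h1 : BorelSpace (ℕ → ℕ → ℕ → Bool) := Pi.borelSpace
  exact Prod.borelSpace

/-- isomorphism of a Borel family of structures is analytic -/
theorem analytic_isoZ (u : (ℕ → Bool) → ZB) (hu : Measurable u) :
    AnalyticSet {p : (ℕ → Bool) × (ℕ → Bool) | ∃ σ : Equiv.Perm ℕ, IsoZ σ (u p.1) (u p.2)} := by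
  have h := analytic_isoB (Γ := Empty) (fun c => ((u c).1, (fun e _ => e.elim), (u c).2))
    (Measurable.prodMk (measurable_fst.comp hu)
      (Measurable.prodMk (measurable_pi_lambda _ fun e => e.elim) (measurable_snd.comp hu)))
  refine (congrArg AnalyticSet (Set.ext fun p => ?_)).mp h
  constructor
  · rintro ⟨σ, h1, -, h3⟩
    exact ⟨σ, h1, h3⟩
  · rintro ⟨σ, h1, h3⟩
    exact ⟨σ, h1, fun e => e.elim, h3⟩

/-- The dichotomy for the structures of the class. -/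
theorem main (B : Set ZB) (hB : MeasurableSet B) (hG : ∀ x ∈ B, Good K x)
    (hinv : ∀ x ∈ B, ∀ (y : ZB) (σ : Equiv.Perm ℕ), IsoZ σ x y → y ∈ B) :
    (∃ f : ℕ → ZB, ∀ x ∈ B, ∃ n, ∃ σ : Equiv.Perm ℕ, IsoZ σ (f n) x) ∨
    (∃ c : (ℕ → Bool) → ZB, Continuous c ∧ (∀ A, c A ∈ B) ∧
      ∀ A A', (∃ σ : Equiv.Perm ℕ, IsoZ σ (c A) (c A')) → A = A') := by
  have : Countable (FreeGroup ℕ) := cfg
  have b1 : BorelSpace (XB (FreeGroup ℕ)) := bsB
  have b2 : BorelSpace ZB := bsZ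
  set A : Set (XB (FreeGroup ℕ)) := {y | DE K y ∈ B ∧ GE K y} with hAdef
  have hAm : MeasurableSet A := (m_DE K hB).inter (m_GE K)
  have hAi : ∀ y ∈ A, ∀ (y' : XB (FreeGroup ℕ)) (σ : Equiv.Perm ℕ), IsoB σ y y' → y' ∈ A := by
    rintro y ⟨h1, h2⟩ y' σ hσ
    obtain ⟨h3, τ, hτ⟩ := ge_inv h2 hσ
    exact ⟨hinv _ h1 _ τ hτ, h3⟩
  refine transfer (EX := fun x y : XB (FreeGroup ℕ) => ∃ σ : Equiv.Perm ℕ, IsoB σ x y)
    (EY := fun x y : ZB => ∃ σ : Equiv.Perm ℕ, IsoZ σ x y) ?_ ?_ ?_ (DE K) (m_DE K) A B ?_ ?_ ?_ ?_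
    ?_ (std (FreeGroup ℕ) A hAm (fun y hy => ge_hd hy.2 (hG _ hy.1)) hAi)
  · rintro x y ⟨σ, hσ⟩
    exact ⟨_, isoB_symm hσ⟩
  · rintro x y z ⟨σ, hσ⟩ ⟨τ, hτ⟩
    exact ⟨_, isoB_trans hσ hτ⟩
  · rintro x y z ⟨σ, hσ⟩ ⟨τ, hτ⟩
    exact ⟨_, isoZ_trans hσ hτ⟩
  · exact fun y hy => hy.1
  · intro x hx
    obtain ⟨y, hy, σ, hσ⟩ := ge_ex (hG x hx)
    exact ⟨y, ⟨hinv x hx _ _ (isoZ_symm hσ), hy⟩, σ, hσ⟩
  · rintro y y' ⟨h1, h2⟩ ⟨σ, hσ⟩
    obtain ⟨h3, τ, hτ⟩ := ge_inv h2 (isoB_symm hσ)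
    exact ⟨_, isoZ_symm hτ⟩
  · rintro y ⟨h1, h2⟩
    refine ⟨{y}, Set.countable_singleton y, ?_⟩
    rintro y' ⟨h3, h4⟩ ⟨σ, hσ⟩
    exact ⟨y, rfl, ge_uni h2 h4 hσ⟩
  · exact fun u hu => analytic_isoZ u hu

end Pool.Agent.H2.VC
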