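import Pool.Agent.H2.VC.Meas
import Pool.Graph.R_pool_sql_team_seeded_35f281b4.K7.H41.NC.Fo

set_option autoImplicit false

/-!
The dichotomy for relational structures with relations of arity at most two and further unary
predicates.
-/

namespace Pool.Agent.H2.VC

open Pool.Agent.H533R2.VO (RS)
open Pool.Agent.H533R2.VS (US UIso UDich VCu)

/-- the pair -/
def pr {n : ℕ} (u v : ℕ) : Fin n → ℕ := fun j => if j.val = 0 then u else v

/-- the first entry -/
def fs {n : ℕ} (v : Fin n → ℕ) : ℕ := if h : 0 < n then v ⟨0, h⟩ else 0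

/-- the second entry -/
def sn {n : ℕ} (v : Fin n → ℕ) : ℕ := if h : 1 < n then v ⟨1, h⟩ else 0

theorem pr_fs_sn {n : ℕ} (hn : n ≤ 2) (v : Fin n → ℕ) : pr (fs v) (sn v) = v := by
  funext j
  have hj := j.isLt
  unfold pr fs sn
  split_ifs with h1 h2 h3
  · congr 1
    exact Fin.ext h1.symm
  · omega
  · congr 1
    exact Fin.ext (by show 1 = j.val; omega)
  · omega

theorem comp_pr {n : ℕ} (σ : ℕ → ℕ) (u v : ℕ) : σ ∘ (pr u v : Fin n → ℕ) = pr (σ u) (σ v) := by
  funext j
  show σ (if j.val = 0 then u else v) = if j.val = 0 then σ u else σ v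
  split_ifs <;> rfl

variable {a : ℕ → ℕ}

/-- the binary relations of a structure -/
def bn (x : RS a) : ℕ → ℕ → ℕ → Bool := fun i m n => x i (pr m n)

/-- the structure with given binary relations -/
def nb (z : ℕ → ℕ → ℕ → Bool) : RS a := fun i v => z i (fs v) (sn v)

theorem nb_bn (ha : ∀ i, a i ≤ 2) (x : RS a) : nb (bn x) = x := by
  funext i v
  show x i (pr (fs v) (sn v)) = x i v
  rw [pr_fs_sn (ha i)]

/-- the class of the structures on `ℕ` -/
def VG (K : ℕ → Kd) (a : ℕ → ℕ) (x : RS a) : Prop := Good K (bn x, fun _ _ => false)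

theorem good_un {K : ℕ → Kd} {r : ℕ → ℕ → ℕ → Bool} {u u' : ℕ → ℕ → Bool}
    (h : Good K (r, u)) : Good K (r, u') :=
  ⟨h.tow, h.pres, h.down, h.sat, h.una⟩

/-- the dichotomy -/
theorem vcu (K : ℕ → Kd) (ha : ∀ i, a i ≤ 2) : VCu (VG K a) := by
  intro B hB hi hV
  set Th : US a → ZB := fun x => (bn x.1, x.2) with hTh
  set Xi : ZB → US a := fun z => (nb z.1, z.2) with hXi
  have hXT : ∀ x, Xi (Th x) = x := fun x => Prod.ext (nb_bn ha x.1) rfl
  have cXi : Continuous Xi := by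
    refine Continuous.prodMk ?_ continuous_snd
    refine continuous_pi fun i => continuous_pi fun v => ?_
    exact (continuous_apply (sn v)).comp ((continuous_apply (fs v)).comp
      ((continuous_apply i).comp continuous_fst))
  have cTh : Continuous Th := by
    refine Continuous.prodMk ?_ continuous_snd
    refine continuous_pi fun i => continuous_pi fun m => continuous_pi fun n => ?_
    exact (continuous_apply (pr m n)).comp ((continuous_apply i).comp continuous_fst)
  have b2 : BorelSpace ZB := bsZ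
  have hiso : ∀ {x y : US a}, UIso x y ↔ ∃ σ : Equiv.Perm ℕ, IsoZ σ (Th x) (Th y) := by
    intro x y
    constructor
    · rintro ⟨σ, h1, h2⟩
      refine ⟨σ, fun i m n => ?_, h2⟩
      show y.1 i (pr (σ m) (σ n)) = x.1 i (pr m n)
      rw [← h1, comp_pr]
    · rintro ⟨σ, h1, h2⟩
      refine ⟨σ, fun i v => ?_, h2⟩
      have h3 := h1 i (fs v) (sn v)
      have h4 : y.1 i (pr (σ (fs v)) (σ (sn v))) = x.1 i (pr (fs v) (sn v)) := h3
      rw [← comp_pr, pr_fs_sn (ha i)] at h4
      exact h4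
  set B' : Set ZB := {z | Xi z ∈ B ∧ Th (Xi z) = z} with hB'
  have hmB : MeasurableSet B' :=
    (cXi.measurable hB).inter (isClosed_eq (cTh.comp cXi) continuous_id).measurableSet
  have hBT : ∀ x, x ∈ B → Th x ∈ B' := fun x hx => by
    refine ⟨?_, ?_⟩
    · rw [hXT]
      exact hx
    · rw [hXT]
  have hmain := main K B' hmB ?_ ?_
  · rcases hmain with ⟨f, hf⟩ | ⟨c, c1, c2, c3⟩
    · left
      classical
      refine ⟨fun n => if h : ∃ x ∈ B, ∃ σ : Equiv.Perm ℕ, IsoZ σ (f n) (Th x) then h.choose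
        else (fun _ _ => false, fun _ _ => false), fun x hx => ?_⟩
      obtain ⟨n, σ, hn⟩ := hf _ (hBT x hx)
      refine ⟨n, ?_⟩
      have hex : ∃ x ∈ B, ∃ σ : Equiv.Perm ℕ, IsoZ σ (f n) (Th x) := ⟨x, hx, σ, hn⟩
      show UIso (if h : ∃ x ∈ B, ∃ σ : Equiv.Perm ℕ, IsoZ σ (f n) (Th x) then h.choose
        else (fun _ _ => false, fun _ _ => false)) x
      rw [dif_pos hex]
      obtain ⟨-, τ, hτ⟩ := hex.choose_spec
      exact hiso.2 ⟨_, isoZ_trans (isoZ_symm hτ) hn⟩
    · right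
      refine ⟨fun A => Xi (c A), cXi.comp c1, fun A => (c2 A).1, fun A A' h => c3 A A' ?_⟩
      obtain ⟨σ, hσ⟩ := hiso.1 h
      rw [(c2 A).2, (c2 A').2] at hσ
      exact ⟨σ, hσ⟩
  · rintro z ⟨h1, h2⟩
    have h3 : Good K (bn (Xi z).1, (Xi z).2) := good_un (hV _ h1)
    have h4 : (bn (Xi z).1, (Xi z).2) = z := h2
    rw [h4] at h3
    exact h3
  · rintro z ⟨h1, h2⟩ z' σ hσ
    obtain ⟨x, hx⟩ : ∃ x, x = Xi z := ⟨_, rfl⟩
    rw [← hx] at h1 h2
    subst h2
    have e1 : z' = Th (⟨fun i v => x.1 i (⇑σ.symm ∘ v), fun i m => x.2 i (σ.symm m)⟩ : US a) := by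
      refine Prod.ext ?_ ?_
      · funext i m n
        show z'.1 i m n = x.1 i (⇑σ.symm ∘ pr m n)
        have := hσ.1 i (σ.symm m) (σ.symm n)
        rw [σ.apply_symm_apply, σ.apply_symm_apply] at this
        rw [this, comp_pr]
        rfl
      · funext i m
        have := hσ.2 i (σ.symm m)
        rw [σ.apply_symm_apply] at this
        exact this
    subst e1
    refine hBT _ ((hi x _ ?_).1 h1)
    refine ⟨σ, fun i v => ?_, fun i u => ?_⟩
    · have e2 : ⇑σ.symm ∘ (⇑σ ∘ v) = v := funext fun j => σ.symm_apply_apply _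
      show x.1 i (⇑σ.symm ∘ (⇑σ ∘ v)) = x.1 i v
      rw [e2]
    · show x.2 i (σ.symm (σ u)) = x.2 i u
      rw [σ.symm_apply_apply]

end Pool.Agent.H2.VC
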