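import Pool.Agent.H2.VC.Tr

set_option autoImplicit false

/-!
The structures of the class, from a family of relations.
-/

namespace Pool.Agent.H2.VC

theorem good_of {ι : Type} {s : ι → ℕ → ℕ → Prop} {K : ℕ → Kd} {x : ZB} (τ : Option ℕ → ι)
    (hτ : ∀ e, Lr K x e = s (τ e))
    (h1 : ∀ i, (∀ m, s i m m) ∧ (∀ m n k, s i m n → s i n k → s i m k) ∧
      ∀ m n k, s i m k → s i n k → s i m n ∨ s i n m)
    (h2 : ∀ i k, s i = s k ∨ Fin2 (s i) (s k) ∨ Fin2 (s k) (s i))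
    (h3 : ∀ j e, K j = Kd.mp e →
      (∀ u v u' v', Re x j u v → Eqv (s (τ e)) u u' → Eqv (s (τ e)) v v' → Re x j u' v') ∧
      ∀ k, (s (τ e) = s k ∨ Fin2 (s (τ e)) (s k)) →
        (∀ u v u' v', Re x j u v → Re x j u' v' → (s k u u' ↔ s k v v')) ∧
        (∀ u v w, Re x j u v → s k w u → ∃ u' v', Eqv (s k) w u' ∧ Re x j u' v') ∧
        ∀ u v w, Re x j u v → s k w v → ∃ u' v', Eqv (s k) w v' ∧ Re x j u' v')
    (h4 : ∀ i, K i = Kd.una → ∀ m n, x.1 i m n = x.1 i m 0) : Good K x := by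
  have hact : ∀ k j, Act K x k j → ∃ e, K j = Kd.mp e ∧
      (s (τ e) = s (τ k) ∨ Fin2 (s (τ e)) (s (τ k))) := by
    rintro k j ⟨e, he, h | h⟩
    · rw [hτ, hτ] at h
      exact ⟨e, he, Or.inl (funext fun m => funext fun n => propext (h m n))⟩
    · rw [hτ, hτ] at h
      exact ⟨e, he, Or.inr h⟩
  refine ⟨⟨fun i m => ?_, fun i m n k => ?_, fun i m n k => ?_, fun i k => ?_⟩, fun k => ?_,
    fun k => ?_, fun j e he m n m' n' => ?_, h4⟩
  · rw [hτ]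
    exact (h1 _).1 m
  · rw [hτ]
    exact (h1 _).2.1 m n k
  · rw [hτ]
    exact (h1 _).2.2 m n k
  · rw [hτ, hτ]
    rcases h2 (τ (ix i)) (τ (ix k)) with h | h | h
    · left
      rw [h]
      exact fun m n => Iff.rfl
    · exact Or.inr (Or.inl h)
    · exact Or.inr (Or.inr h)
  · rw [hτ]
    refine ⟨(h1 _).1, (h1 _).2.1, fun j hj m n m' n' k1 k2 => ?_⟩
    obtain ⟨e, he, h⟩ := hact k j hj
    exact ((h3 j e he).2 _ h).1 m m' n n' k1 k2
  · rw [hτ]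
    intro j hj m n hmn
    obtain ⟨e, he, h⟩ := hact k j hj
    obtain ⟨-, h5, h6⟩ := (h3 j e he).2 _ h
    constructor
    · intro m' hm'
      obtain ⟨u', v', k1, k2⟩ := h5 m n m' hmn hm'
      exact ⟨u', v', k2, k1⟩
    · intro n' hn'
      obtain ⟨u', v', k1, k2⟩ := h6 m n n' hmn hn'
      exact ⟨u', v', k2, k1⟩
  · rw [hτ]
    exact fun k1 k2 k3 => (h3 j e he).1 m n m' n' k1 k2 k3

end Pool.Agent.H2.VC
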