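import Pool.Agent.H2.VC.Words
import Pool.Graph.R_seed8.Y560.TH.TDd

set_option autoImplicit false

/-!
Towers of semilinear preorders are hereditarily decomposable.
-/

namespace Pool.Agent.H2.VC

open Pool.Agent.Y560.TH (Modl HDr)

/-- a tower of semilinear preorders -/
structure Tow (s : ℕ → ℕ → ℕ → Prop) : Prop where
  refl : ∀ i m, s i m m
  trans : ∀ i m n k, s i m n → s i n k → s i m k
  semi : ∀ i m n k, s i m k → s i n k → s i m n ∨ s i n m
  chain : ∀ i k, (∀ m n, s i m n ↔ s k m n) ∨ (∀ m n, s i m n → Eqv (s k) m n) ∨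
    ∀ m n, s k m n → Eqv (s i) m n

/-- a module for all relations -/
def Mdl (s : ℕ → ℕ → ℕ → Prop) (F X : Finset ℕ) : Prop := X ⊆ F ∧
  ∀ u ∈ X, ∀ v ∈ X, ∀ w ∈ F, w ∉ X → ∀ i, (s i u w ↔ s i v w) ∧ (s i w u ↔ s i w v)

/-- a module for one relation -/
def Md1 (s : ℕ → ℕ → Prop) (F X : Finset ℕ) : Prop :=
  ∀ u ∈ X, ∀ v ∈ X, ∀ w ∈ F, w ∉ X → (s u w ↔ s v w) ∧ (s w u ↔ s w v)

theorem md1_full {s : ℕ → ℕ → Prop} {F X : Finset ℕ} (hX : X ⊆ F)
    (h : ∀ u ∈ F, ∀ v ∈ F, s u v) : Md1 s F X :=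
  fun u hu v hv w hw _ => ⟨⟨fun _ => h v (hX hv) w hw, fun _ => h u (hX hu) w hw⟩,
    ⟨fun _ => h w hw v (hX hv), fun _ => h w hw u (hX hu)⟩⟩

theorem md1_eq {s : ℕ → ℕ → Prop} {F X : Finset ℕ} (hX : X ⊆ F)
    (h : ∀ u ∈ F, ∀ v ∈ F, s u v → u = v) : Md1 s F X := by
  intro u hu v hv w hw hwX
  have h1 : ∀ u ∈ X, ¬ s u w := fun u hu hc => hwX (h u (hX hu) w hw hc ▸ hu)
  have h2 : ∀ u ∈ X, ¬ s w u := fun u hu hc => hwX (h w hw u (hX hu) hc ▸ hu)
  exact ⟨⟨fun hc => absurd hc (h1 u hu), fun hc => absurd hc (h1 v hv)⟩,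
    ⟨fun hc => absurd hc (h2 u hu), fun hc => absurd hc (h2 v hv)⟩⟩

theorem md1_congr {s s' : ℕ → ℕ → Prop} {F X : Finset ℕ} (hX : X ⊆ F)
    (h : ∀ u ∈ F, ∀ v ∈ F, (s u v ↔ s' u v)) (h1 : Md1 s F X) : Md1 s' F X := by
  intro u hu v hv w hw hwX
  rw [← h u (hX hu) w hw, ← h v (hX hv) w hw, ← h w hw u (hX hu), ← h w hw v (hX hv)]
  exact h1 u hu v hv w hw hwX

/-- a pair in a finite set -/
theorem exists_pair {F : Finset ℕ} (hF : 3 ≤ F.card) :
    ∃ X : Finset ℕ, X ⊆ F ∧ 2 ≤ X.card ∧ X ≠ F := by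
  obtain ⟨X, hX, hc⟩ := Finset.exists_subset_card_eq (show 2 ≤ F.card by omega)
  exact ⟨X, hX, hc.ge, fun h => by subst h; omega⟩

/-- A semilinear order on a finite set has a module. -/
theorem semi_module {s : ℕ → ℕ → Prop} {F : Finset ℕ} (hF : 3 ≤ F.card)
    (hr : ∀ m, s m m) (ht : ∀ m n k, s m n → s n k → s m k)
    (hs : ∀ m n k, s m k → s n k → s m n ∨ s n m)
    (ha : ∀ u ∈ F, ∀ v ∈ F, s u v → s v u → u = v) :
    ∃ X : Finset ℕ, X ⊆ F ∧ 2 ≤ X.card ∧ X ≠ F ∧ Md1 s F X := by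
  classical
  by_cases h0 : ∀ u ∈ F, ∀ v ∈ F, s u v → u = v
  · obtain ⟨X, h1, h2, h3⟩ := exists_pair hF
    exact ⟨X, h1, h2, h3, md1_eq h1 h0⟩
  push Not at h0
  obtain ⟨a, haF, b, hbF, hab, hne⟩ := h0
  -- the elements of `F` which have a minimal element below them
  have hmin : ∀ c ∈ F, ∃ d ∈ F, s d c ∧ ∀ x ∈ F, s x d → x = d := by
    intro c hc
    obtain ⟨d, hd, hmin⟩ := Finset.exists_min_image (F.filter fun x => s x c)
      (fun x => (F.filter fun y => s y x).card) ⟨c, Finset.mem_filter.2 ⟨hc, hr c⟩⟩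
    rw [Finset.mem_filter] at hd
    refine ⟨d, hd.1, hd.2, fun x hx hxd => ?_⟩
    by_contra hne
    have h1 := hmin x (Finset.mem_filter.2 ⟨hx, ht _ _ _ hxd hd.2⟩)
    have h2 : (F.filter fun y => s y x) ⊂ F.filter fun y => s y d := by
      refine Finset.ssubset_iff_subset_ne.2 ⟨fun y hy => ?_, fun h => ?_⟩
      · rw [Finset.mem_filter] at hy ⊢
        exact ⟨hy.1, ht _ _ _ hy.2 hxd⟩
      · have h3 : d ∈ F.filter fun y => s y x := by
          rw [h]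
          exact Finset.mem_filter.2 ⟨hd.1, hr d⟩
        exact hne (ha x hx d hd.1 hxd (Finset.mem_filter.1 h3).2)
    exact absurd (Finset.card_lt_card h2) (by omega)
  obtain ⟨d, hd, hda, hdm⟩ := hmin a haF
  have hdb : s d b := ht _ _ _ hda hab
  by_cases h1 : ∀ c ∈ F, s d c
  · -- `d` is the least element
    refine ⟨F.erase d, Finset.erase_subset _ _, ?_, ?_, ?_⟩
    · rw [Finset.card_erase_of_mem hd]
      omega
    · intro h
      have := Finset.notMem_erase d F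
      rw [h] at this
      exact this hd
    · intro u hu v hv w hw hwX
      have hwd : w = d := by
        by_contra hc
        exact hwX (Finset.mem_erase.2 ⟨hc, hw⟩)
      subst hwd
      rw [Finset.mem_erase] at hu hv
      exact ⟨⟨fun h => absurd (hdm u hu.2 h) hu.1, fun h => absurd (hdm v hv.2 h) hv.1⟩,
        ⟨fun _ => h1 v hv.2, fun _ => h1 u hu.2⟩⟩
  · push Not at h1
    obtain ⟨c, hc, hdc⟩ := h1
    refine ⟨F.filter fun x => s d x, Finset.filter_subset _ _, ?_, ?_, ?_⟩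
    · have h2 : ({a, b} : Finset ℕ) ⊆ F.filter fun x => s d x := by
        intro x hx
        rw [Finset.mem_insert, Finset.mem_singleton] at hx
        rcases hx with rfl | rfl
        · exact Finset.mem_filter.2 ⟨haF, hda⟩
        · exact Finset.mem_filter.2 ⟨hbF, hdb⟩
      have h3 := Finset.card_le_card h2
      rw [Finset.card_pair hne] at h3
      exact h3
    · intro h
      rw [← h, Finset.mem_filter] at hc
      exact hdc hc.2
    · intro u hu v hv w hw hwX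
      rw [Finset.mem_filter] at hu hv
      have hwd : ¬ s d w := fun h => hwX (Finset.mem_filter.2 ⟨hw, h⟩)
      have k1 : ∀ u ∈ F, s d u → ¬ s u w := fun u _ h2 h3 => hwd (ht _ _ _ h2 h3)
      have k2 : ∀ u ∈ F, s d u → ¬ s w u := fun u _ h2 h3 => by
        rcases hs _ _ _ h2 h3 with h4 | h4
        · exact hwd h4
        · exact hwd (hdm w hw h4 ▸ hr _)
      exact ⟨⟨fun h => absurd h (k1 u hu.1 hu.2), fun h => absurd h (k1 v hv.1 hv.2)⟩,
        ⟨fun h => absurd h (k2 u hu.1 hu.2), fun h => absurd h (k2 v hv.1 hv.2)⟩⟩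

theorem exists_max {P : ℕ → Prop} (f : ℕ → ℕ) (N : ℕ) (hN : ∀ i, P i → f i ≤ N)
    (h : ∃ i, P i) : ∃ i, P i ∧ ∀ j, P j → f j ≤ f i := by
  classical
  have h1 : ∃ n, ∃ i, P i ∧ N - f i = n := by
    obtain ⟨i, hi⟩ := h
    exact ⟨_, i, hi, rfl⟩
  obtain ⟨i, hi, h2⟩ := Nat.find_spec h1
  refine ⟨i, hi, fun j hj => ?_⟩
  have h3 := Nat.find_min' h1 ⟨j, hj, rfl⟩
  have h4 := hN i hi
  have h5 := hN j hj
  omega

theorem Tow.module {s : ℕ → ℕ → ℕ → Prop} (h : Tow s) {F : Finset ℕ} (hF : 3 ≤ F.card) :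
    ∃ X, Mdl s F X ∧ 2 ≤ X.card ∧ X ≠ F := by
  classical
  suffices ∃ X : Finset ℕ, X ⊆ F ∧ 2 ≤ X.card ∧ X ≠ F ∧ ∀ i, Md1 (s i) F X by
    obtain ⟨X, h1, h2, h3, h4⟩ := this
    exact ⟨X, ⟨h1, fun u hu v hv w hw hwX i => h4 i u hu v hv w hw hwX⟩, h2, h3⟩
  by_cases hfull : ∀ i, ∀ u ∈ F, ∀ v ∈ F, s i u v
  · obtain ⟨X, h1, h2, h3⟩ := exists_pair hF
    exact ⟨X, h1, h2, h3, fun i => md1_full h1 (hfull i)⟩
  push Not at hfull
  let EF : ℕ → Finset (ℕ × ℕ) := fun i => (F ×ˢ F).filter fun p => Eqv (s i) p.1 p.2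
  obtain ⟨i, hi, hmax⟩ := exists_max (P := fun i => ∃ u ∈ F, ∃ v ∈ F, ¬ s i u v)
    (fun i => (EF i).card) (F ×ˢ F).card
    (fun i _ => Finset.card_le_card (Finset.filter_subset _ _)) hfull
  have hsub : ∀ j, (∃ u ∈ F, ∃ v ∈ F, ¬ s j u v) → (∀ m n, s i m n → Eqv (s j) m n) →
      ∀ u ∈ F, ∀ v ∈ F, Eqv (s j) u v → Eqv (s i) u v := by
    intro j hj hij u hu v hv huv
    have h1 : EF i ⊆ EF j := by
      intro p hp
      rw [Finset.mem_filter] at hp ⊢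
      exact ⟨hp.1, hij _ _ hp.2.1⟩
    have h2 : EF i = EF j := Finset.eq_of_subset_of_card_le h1 (hmax j hj)
    have h3 : (u, v) ∈ EF j := Finset.mem_filter.2 ⟨Finset.mem_product.2 ⟨hu, hv⟩, huv⟩
    rw [← h2, Finset.mem_filter] at h3
    exact h3.2
  by_cases hcl : ∃ a ∈ F, ∃ b ∈ F, a ≠ b ∧ Eqv (s i) a b
  · obtain ⟨a, ha, b, hb, hne, hab⟩ := hcl
    refine ⟨F.filter fun x => Eqv (s i) a x, Finset.filter_subset _ _, ?_, ?_, fun j => ?_⟩
    · have h2 : ({a, b} : Finset ℕ) ⊆ F.filter fun x => Eqv (s i) a x := by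
        intro x hx
        rw [Finset.mem_insert, Finset.mem_singleton] at hx
        rcases hx with rfl | rfl
        · exact Finset.mem_filter.2 ⟨ha, h.refl i _, h.refl i _⟩
        · exact Finset.mem_filter.2 ⟨hb, hab⟩
      have h3 := Finset.card_le_card h2
      rw [Finset.card_pair hne] at h3
      exact h3
    · intro hc
      obtain ⟨u, hu, v, hv, huv⟩ := hi
      rw [← hc, Finset.mem_filter] at hu hv
      exact huv (h.trans _ _ _ _ hu.2.2 hv.2.1)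
    · have hEq : ∀ j, (∀ u ∈ F, ∀ v ∈ F, (Eqv (s j) u v ↔ Eqv (s i) u v)) →
          Md1 (s j) F (F.filter fun x => Eqv (s i) a x) := by
        intro j hj u hu v hv w hw hwX
        rw [Finset.mem_filter] at hu hv
        have huv : Eqv (s j) u v := (hj u hu.1 v hv.1).2
          ⟨h.trans _ _ _ _ hu.2.2 hv.2.1, h.trans _ _ _ _ hv.2.2 hu.2.1⟩
        exact ⟨⟨fun k => h.trans _ _ _ _ huv.2 k, fun k => h.trans _ _ _ _ huv.1 k⟩,
          ⟨fun k => h.trans _ _ _ _ k huv.1, fun k => h.trans _ _ _ _ k huv.2⟩⟩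
      by_cases hj : ∃ u ∈ F, ∃ v ∈ F, ¬ s j u v
      · rcases h.chain j i with k1 | k1 | k1
        · exact hEq j fun u _ v _ => ⟨fun k => ⟨(k1 _ _).1 k.1, (k1 _ _).1 k.2⟩,
            fun k => ⟨(k1 _ _).2 k.1, (k1 _ _).2 k.2⟩⟩
        · intro u hu v hv w hw hwX
          rw [Finset.mem_filter] at hu hv
          have k2 : ∀ u ∈ F, Eqv (s i) a u → ¬ Eqv (s i) u w := fun u _ k3 k4 =>
            hwX (Finset.mem_filter.2 ⟨hw, h.trans _ _ _ _ k3.1 k4.1, h.trans _ _ _ _ k4.2 k3.2⟩)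
          have k5 : ∀ u ∈ F, Eqv (s i) a u → ¬ s j u w := fun u hu k3 k4 => k2 u hu k3 (k1 _ _ k4)
          have k6 : ∀ u ∈ F, Eqv (s i) a u → ¬ s j w u := fun u hu k3 k4 =>
            k2 u hu k3 ⟨(k1 _ _ k4).2, (k1 _ _ k4).1⟩
          exact ⟨⟨fun k => absurd k (k5 u hu.1 hu.2), fun k => absurd k (k5 v hv.1 hv.2)⟩,
            ⟨fun k => absurd k (k6 u hu.1 hu.2), fun k => absurd k (k6 v hv.1 hv.2)⟩⟩
        · exact hEq j fun u hu v hv => ⟨hsub j hj k1 u hu v hv, fun k => k1 _ _ k.1⟩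
      · push Not at hj
        exact md1_full (Finset.filter_subset _ _) hj
  · push Not at hcl
    have hE : ∀ j, (∃ u ∈ F, ∃ v ∈ F, ¬ s j u v) → ∀ u ∈ F, ∀ v ∈ F, Eqv (s j) u v → u = v := by
      intro j hj
      by_contra hc
      push Not at hc
      obtain ⟨u, hu, v, hv, huv, hne⟩ := hc
      have h1 : EF i ⊂ EF j := by
        refine Finset.ssubset_iff_subset_ne.2 ⟨fun p hp => ?_, fun hc => ?_⟩
        · rw [Finset.mem_filter, Finset.mem_product] at hp ⊢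
          refine ⟨hp.1, ?_⟩
          have h2 : p.1 = p.2 := by
            by_contra hne'
            exact hcl p.1 hp.1.1 p.2 hp.1.2 hne' hp.2
          rw [h2]
          exact ⟨h.refl _ _, h.refl _ _⟩
        · have h3 : (u, v) ∈ EF j := Finset.mem_filter.2 ⟨Finset.mem_product.2 ⟨hu, hv⟩, huv⟩
          rw [← hc, Finset.mem_filter] at h3
          exact hcl u hu v hv hne h3.2
      exact absurd (Finset.card_lt_card h1) (not_lt.2 (hmax j hj))
    by_cases hn : ∃ j, (∃ u ∈ F, ∃ v ∈ F, ¬ s j u v) ∧ ∃ u ∈ F, ∃ v ∈ F, s j u v ∧ u ≠ v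
    · obtain ⟨j, hj, u, hu, v, hv, huv, hne⟩ := hn
      obtain ⟨X, h1, h2, h3, h4⟩ := semi_module (s := s j) hF (h.refl j) (h.trans j) (h.semi j)
        (fun u hu v hv k1 k2 => hE j hj u hu v hv ⟨k1, k2⟩)
      refine ⟨X, h1, h2, h3, fun l => ?_⟩
      by_cases hl : ∃ u ∈ F, ∃ v ∈ F, ¬ s l u v
      · rcases h.chain l j with k1 | k1 | k1
        · exact md1_congr h1 (fun u _ v _ => (k1 u v).symm) h4
        · exact md1_eq h1 fun u hu v hv k2 => hE j hj u hu v hv (k1 _ _ k2)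
        · exact absurd (hE l hl u hu v hv (k1 _ _ huv)) hne
      · push Not at hl
        exact md1_full h1 hl
    · push Not at hn
      obtain ⟨X, h1, h2, h3⟩ := exists_pair hF
      refine ⟨X, h1, h2, h3, fun l => ?_⟩
      by_cases hl : ∃ u ∈ F, ∃ v ∈ F, ¬ s l u v
      · exact md1_eq h1 fun u hu v hv k => hn l hl u hu v hv k
      · push Not at hl
        exact md1_full h1 hl

theorem Tow.hd {x : ℕ → ℕ → ℕ → Bool} (h : Tow fun i m n => x i m n = true) : HDr x := by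
  intro F hF
  obtain ⟨X, ⟨h1, h2⟩, h3, h4⟩ := h.module hF
  refine ⟨X, ⟨h1, fun u hu v hv w hw hwX i => ?_⟩, h3, h4⟩
  obtain ⟨k1, k2⟩ := h2 u hu v hv w hw hwX i
  exact ⟨Bool.eq_iff_iff.2 k1, Bool.eq_iff_iff.2 k2⟩

end Pool.Agent.H2.VC
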