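import Mathlib.GroupTheory.FreeGroup.Basic
import Mathlib.GroupTheory.FreeGroup.Reduce

set_option autoImplicit false

/-!
Paths along words in the letters of a free group: a preorder `r` on `ℕ` and relations `R j` which
preserve and reflect it generate a preorder on the product of the free group with `ℕ`.
-/

namespace Pool.Agent.H2.VC

/-- the relation of a letter -/
def Rl (R : ℕ → ℕ → ℕ → Prop) (l : ℕ × Bool) (m n : ℕ) : Prop :=
  if l.2 then R l.1 m n else R l.1 n m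

/-- the inverse letter -/
def il (l : ℕ × Bool) : ℕ × Bool := (l.1, !l.2)

theorem rl_il (R : ℕ → ℕ → ℕ → Prop) (l : ℕ × Bool) (m n : ℕ) :
    Rl R (il l) m n ↔ Rl R l n m := by
  obtain ⟨j, b⟩ := l
  cases b <;> simp [Rl, il]

theorem il_il (l : ℕ × Bool) : il (il l) = l := by
  obtain ⟨j, b⟩ := l
  simp [il]

/-- paths along a word -/
def Pth (r : ℕ → ℕ → Prop) (act : ℕ → Prop) (R : ℕ → ℕ → ℕ → Prop) :
    List (ℕ × Bool) → ℕ → ℕ → Prop
  | [], m, n => r m n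
  | l :: ls, m, n => act l.1 ∧ ∃ m' n', r m m' ∧ Rl R l m' n' ∧ Pth r act R ls n' n

/-- the hypotheses: `r` is a preorder which is preserved and reflected by the active letters -/
structure Pres (r : ℕ → ℕ → Prop) (act : ℕ → Prop) (R : ℕ → ℕ → ℕ → Prop) : Prop where
  refl : ∀ m, r m m
  trans : ∀ m n k, r m n → r n k → r m k
  pres : ∀ j, act j → ∀ m n m' n', R j m m' → R j n n' → (r m n ↔ r m' n')

variable {r : ℕ → ℕ → Prop} {act : ℕ → Prop} {R : ℕ → ℕ → ℕ → Prop}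

theorem Pres.rl (h : Pres r act R) {l : ℕ × Bool} (hl : act l.1) {m n m' n' : ℕ}
    (h1 : Rl R l m m') (h2 : Rl R l n n') : r m n ↔ r m' n' := by
  obtain ⟨j, b⟩ := l
  cases b
  · exact (h.pres j hl _ _ _ _ h1 h2).symm
  · exact h.pres j hl _ _ _ _ h1 h2

theorem Pres.left (h : Pres r act R) {ls : List (ℕ × Bool)} {m m' n : ℕ} (h1 : r m m')
    (h2 : Pth r act R ls m' n) : Pth r act R ls m n := by
  cases ls with
  | nil => exact h.trans _ _ _ h1 h2
  | cons l ls =>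
    obtain ⟨h3, a, b, h4, h5⟩ := h2
    exact ⟨h3, a, b, h.trans _ _ _ h1 h4, h5⟩

theorem Pres.right (h : Pres r act R) {ls : List (ℕ × Bool)} : ∀ {m n n' : ℕ},
    Pth r act R ls m n → r n n' → Pth r act R ls m n' := by
  induction ls with
  | nil => exact fun h1 h2 => h.trans _ _ _ h1 h2
  | cons l ls ih =>
    rintro m n n' ⟨h3, a, b, h4, h5, h6⟩ h2
    exact ⟨h3, a, b, h4, h5, ih h6 h2⟩

theorem Pres.append (h : Pres r act R) {ls ls' : List (ℕ × Bool)} : ∀ {m k : ℕ},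
    Pth r act R (ls ++ ls') m k ↔ ∃ n, Pth r act R ls m n ∧ Pth r act R ls' n k := by
  induction ls with
  | nil =>
    intro m k
    constructor
    · intro h1
      exact ⟨m, h.refl m, h1⟩
    · rintro ⟨n, h1, h2⟩
      exact h.left h1 h2
  | cons l ls ih =>
    intro m k
    constructor
    · rintro ⟨h3, a, b, h4, h5, h6⟩
      obtain ⟨n, h7, h8⟩ := ih.1 h6
      exact ⟨n, ⟨h3, a, b, h4, h5, h7⟩, h8⟩
    · rintro ⟨n, ⟨h3, a, b, h4, h5, h7⟩, h8⟩
      exact ⟨h3, a, b, h4, h5, ih.2 ⟨n, h7, h8⟩⟩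

theorem Pres.cancel (h : Pres r act R) {l : ℕ × Bool} {m n : ℕ}
    (h1 : Pth r act R [l, il l] m n) : r m n := by
  obtain ⟨h3, a, b, h4, h5, h6, c, d, h7, h8, h9⟩ := h1
  rw [rl_il] at h8
  exact h.trans _ _ _ h4 (h.trans _ _ _ ((h.rl h3 h5 h8).2 h7) h9)

theorem Pres.step (h : Pres r act R) {L L' : List (ℕ × Bool)} (hL : FreeGroup.Red.Step L L')
    {m n : ℕ} (h1 : Pth r act R L m n) : Pth r act R L' m n := by
  cases hL with
  | @not L₁ L₂ x b =>
    obtain ⟨a, h2, h3⟩ := h.append.1 h1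
    have h3' : Pth r act R ([(x, b), il (x, b)] ++ L₂) a n := h3
    obtain ⟨c, h4, h5⟩ := h.append.1 h3'
    exact h.append.2 ⟨a, h2, h.left (h.cancel h4) h5⟩

theorem Pres.red (h : Pres r act R) {L L' : List (ℕ × Bool)} (hL : FreeGroup.Red L L')
    {m n : ℕ} (h1 : Pth r act R L m n) : Pth r act R L' m n := by
  induction hL with
  | refl => exact h1
  | tail _ h3 ih => exact h.step h3 ih

/-- the generated relation -/
def Gen (r : ℕ → ℕ → Prop) (act : ℕ → Prop) (R : ℕ → ℕ → ℕ → Prop) (g : FreeGroup ℕ)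
    (m n : ℕ) : Prop := Pth r act R g.toWord m n

theorem Pres.gen_of (h : Pres r act R) {L : List (ℕ × Bool)} {g : FreeGroup ℕ}
    (hL : FreeGroup.mk L = g) {m n : ℕ} (h1 : Pth r act R L m n) : Gen r act R g m n := by
  subst hL
  unfold Gen
  rw [FreeGroup.toWord_mk]
  exact h.red FreeGroup.reduce.red h1

theorem gen_one {m n : ℕ} : Gen r act R 1 m n ↔ r m n := by
  unfold Gen
  rw [FreeGroup.toWord_one]
  exact Iff.rfl

theorem Pres.gen_mul (h : Pres r act R) {g g' : FreeGroup ℕ} {m n k : ℕ}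
    (h1 : Gen r act R g m n) (h2 : Gen r act R g' n k) : Gen r act R (g * g') m k := by
  refine h.gen_of (L := g.toWord ++ g'.toWord) ?_ (h.append.2 ⟨n, h1, h2⟩)
  rw [← FreeGroup.mul_mk, FreeGroup.mk_toWord, FreeGroup.mk_toWord]

theorem gen_letter {j : ℕ} {m n : ℕ} : Gen r act R (FreeGroup.of j) m n ↔
    act j ∧ ∃ m' n', r m m' ∧ R j m' n' ∧ r n' n := by
  unfold Gen
  rw [FreeGroup.toWord_of]
  exact Iff.rfl

theorem gen_letter_inv {j : ℕ} {m n : ℕ} : Gen r act R (FreeGroup.of j)⁻¹ m n ↔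
    act j ∧ ∃ m' n', r m m' ∧ R j n' m' ∧ r n' n := by
  unfold Gen
  rw [FreeGroup.toWord_inv, FreeGroup.toWord_of]
  exact Iff.rfl

theorem Pres.gen_step (h : Pres r act R) {l : ℕ × Bool} (hl : act l.1) {m n : ℕ}
    (h1 : Rl R l m n) : Gen r act R (FreeGroup.mk [l]) m n :=
  h.gen_of rfl ⟨hl, m, n, h.refl m, h1, h.refl n⟩

/-- the symmetric part of `r` -/
def Eqv (r : ℕ → ℕ → Prop) (m n : ℕ) : Prop := r m n ∧ r n m

/-- the domains and the ranges of the active letters are closed downwards, up to equivalence -/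
def Down (r : ℕ → ℕ → Prop) (act : ℕ → Prop) (R : ℕ → ℕ → ℕ → Prop) : Prop :=
  ∀ j, act j → ∀ m n, R j m n →
    (∀ m', r m' m → ∃ a b, R j a b ∧ Eqv r m' a) ∧ ∀ n', r n' n → ∃ a b, R j a b ∧ Eqv r n' b

theorem Down.rl (h : Down r act R) {l : ℕ × Bool} (hl : act l.1) {m n : ℕ} (h1 : Rl R l m n)
    {m' : ℕ} (h2 : r m' m) : ∃ a b, Rl R l a b ∧ Eqv r m' a := by
  obtain ⟨j, b⟩ := l
  cases b
  · obtain ⟨a, b, h3, h4⟩ := (h j hl _ _ h1).2 m' h2
    exact ⟨b, a, h3, h4⟩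
  · obtain ⟨a, b, h3, h4⟩ := (h j hl _ _ h1).1 m' h2
    exact ⟨a, b, h3, h4⟩

theorem Pres.transport (h : Pres r act R) (hd : Down r act R) : ∀ (ls : List (ℕ × Bool))
    {m n : ℕ}, Pth r act R ls m n → ∃ z, r z n ∧ Pth r act R ls m z ∧
      Pth r act R (ls.reverse.map il) z m
  | [], m, n, h1 => ⟨m, h1, h.refl m, h.refl m⟩
  | l :: ls, m, n, ⟨h2, a, b, h3, h4, h5⟩ => by
    obtain ⟨m1, n1, h6, h7⟩ := hd.rl h2 h4 h3
    have h8 : r n1 b := (h.rl h2 h6 h4).1 (h.trans _ _ _ h7.2 h3)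
    obtain ⟨z, h9, h10, h11⟩ := h.transport hd ls (h.left h8 h5)
    refine ⟨z, h9, ⟨h2, m1, n1, h7.1, h6, h10⟩, ?_⟩
    rw [List.reverse_cons, List.map_append]
    refine h.append.2 ⟨n1, h11, h2, n1, m1, h.refl n1, ?_, h7.2⟩
    rw [rl_il]
    exact h6

theorem mk_inv (ls : List (ℕ × Bool)) :
    FreeGroup.mk (ls.reverse.map il) = (FreeGroup.mk ls)⁻¹ := by
  rw [FreeGroup.inv_mk]
  congr 1
  unfold FreeGroup.invRev
  rw [List.map_reverse]
  rfl

theorem Pres.transport_gen (h : Pres r act R) (hd : Down r act R) {g : FreeGroup ℕ} {m n : ℕ}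
    (h1 : Gen r act R g m n) : ∃ z, r z n ∧ Gen r act R g m z ∧ Gen r act R g⁻¹ z m := by
  obtain ⟨z, h2, h3, h4⟩ := h.transport hd g.toWord h1
  refine ⟨z, h2, h3, h.gen_of ?_ h4⟩
  rw [mk_inv, FreeGroup.mk_toWord]

/-- the generated relation is semilinear -/
theorem Pres.semi (h : Pres r act R) (hd : Down r act R)
    (hs : ∀ m n k, r m k → r n k → r m n ∨ r n m) {g g' : FreeGroup ℕ} {m n k : ℕ}
    (h1 : Gen r act R g m k) (h2 : Gen r act R g' n k) :
    Gen r act R (g * g'⁻¹) m n ∨ Gen r act R (g' * g⁻¹) n m := by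
  obtain ⟨z, h3, h4, h5⟩ := h.transport_gen hd h1
  obtain ⟨z', h3', h4', h5'⟩ := h.transport_gen hd h2
  rcases hs z z' k h3 h3' with h6 | h6
  · left
    have h7 := h.gen_mul h4 (gen_one.2 h6)
    rw [mul_one] at h7
    exact h.gen_mul h7 h5'
  · right
    have h7 := h.gen_mul h4' (gen_one.2 h6)
    rw [mul_one] at h7
    exact h.gen_mul h7 h5

/-- monotonicity of the generated relation -/
theorem pth_mono {r' : ℕ → ℕ → Prop} {act' : ℕ → Prop} (hr : ∀ m n, r m n → r' m n)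
    (ha : ∀ j, act j → act' j) : ∀ (ls : List (ℕ × Bool)) {m n : ℕ}, Pth r act R ls m n →
      Pth r' act' R ls m n
  | [], _, _, h => hr _ _ h
  | _ :: ls, _, _, ⟨h2, a, b, h3, h4, h5⟩ => ⟨ha _ h2, a, b, hr _ _ h3, h4, pth_mono hr ha ls h5⟩

/-- the reverse path in a symmetric relation -/
theorem Pres.pth_symm (h : Pres r act R) (hs : ∀ m n, r m n → r n m) :
    ∀ (ls : List (ℕ × Bool)) {m n : ℕ}, Pth r act R ls m n → Pth r act R (ls.reverse.map il) n m
  | [], _, _, h1 => hs _ _ h1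
  | l :: ls, m, n, ⟨h2, a, b, h3, h4, h5⟩ => by
    rw [List.reverse_cons, List.map_append]
    refine h.append.2 ⟨b, h.pth_symm hs ls h5, h2, b, a, h.refl b, ?_, hs _ _ h3⟩
    rw [rl_il]
    exact h4

end Pool.Agent.H2.VC
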